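import Pool.Agent.H606.TP.Mo3

set_option autoImplicit false

/-! # The upper half implies the asymptotic formula for almost all sets of shifts -/

namespace Pool.Agent.H606.TP

open Finset Filter Topology Pool.Agent.H387R2 Pool.Agent.H387R2.Uni Pool.Agent.TH891.SG

/-- the window -/
noncomputable def MM (k N : ℕ) : ℕ := ⌊2 * Real.log (N : ℝ) ^ (k + 1)⌋₊ + 1

lemma tMM (k : ℕ) : Tendsto (fun N : ℕ => (MM k N : ℝ)) atTop atTop := by
  have h1 : Tendsto (fun N : ℕ => Real.log (N : ℝ) ^ (k + 1)) atTop atTop :=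
    (tendsto_pow_atTop (by omega)).comp tL
  refine tendsto_atTop_mono (fun N => ?_) h1
  unfold MM
  push_cast
  have h2 := (Nat.lt_floor_add_one (2 * Real.log (N : ℝ) ^ (k + 1))).le
  have h3 : 0 ≤ Real.log (N : ℝ) ^ (k + 1) := by
    have := Real.log_natCast_nonneg N
    positivity
  linarith

/-- mean of the singular series, upper bound -/
lemma ct_up (k : ℕ) {δ : ℝ} (hδ : 0 < δ) : ∀ᶠ N : ℕ in atTop,
    ∑ T ∈ (range (2 * MM k N)).powersetCard (k + 1), CT T ≤
      (1 + δ) * (((2 * MM k N : ℕ) : ℝ) ^ (k + 1) / (k + 1).factorial) := by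
  obtain ⟨C, hC, h⟩ := CT_avg k
  have c1 : Tendsto (fun H : ℝ => (1 + C * (H ^ (-(3 / 4) : ℝ))) ^ k) atTop (𝓝 ((1 + C * 0) ^ k)) := by
    apply Tendsto.pow
    apply Tendsto.const_add
    apply Tendsto.const_mul
    exact tendsto_rpow_neg_atTop (by norm_num)
  have e1 : ∀ᶠ H : ℝ in atTop, (1 + C * (H ^ (-(3 / 4) : ℝ))) ^ k < 1 + δ :=
    c1.eventually_lt_const (by simp [hδ])
  have t2 : Tendsto (fun N : ℕ => ((2 * MM k N : ℕ) : ℝ)) atTop atTop := by
    have := (tMM k).const_mul_atTop (by norm_num : (0:ℝ) < 2)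
    refine this.congr fun N => ?_
    push_cast; ring
  filter_upwards [t2.eventually e1] with N hN
  set H := 2 * MM k N with hH
  have hH1 : 1 ≤ H := by
    rw [hH]; unfold MM; omega
  have hH0 : (0:ℝ) < H := by exact_mod_cast hH1
  refine (h H hH1).trans ?_
  have h2 : (H:ℝ) + C * (H:ℝ) ^ (1 / 4 : ℝ) = H * (1 + C * ((H:ℝ) ^ (-(3 / 4) : ℝ))) := by
    have : (H:ℝ) ^ (1 / 4 : ℝ) = H * (H:ℝ) ^ (-(3 / 4) : ℝ) := by
      nth_rewrite 2 [← Real.rpow_one (H:ℝ)]
      rw [← Real.rpow_add hH0]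
      norm_num
    rw [this]; ring
  rw [h2, mul_pow]
  have hf : (0:ℝ) < (k + 1).factorial := by exact_mod_cast Nat.factorial_pos _
  calc (H:ℝ) * ((H:ℝ) ^ k * (1 + C * ((H:ℝ) ^ (-(3 / 4) : ℝ))) ^ k) / (k + 1).factorial
      ≤ (H:ℝ) * ((H:ℝ) ^ k * (1 + δ)) / (k + 1).factorial := by gcongr
    _ = _ := by rw [pow_succ]; ring

/-- mean of the counts, lower bound -/
lemma pi_sum_low (k : ℕ) (hk : 1 ≤ k) {δ : ℝ} (hδ : 0 < δ) (hδ1 : δ < 1) : ∀ᶠ N : ℕ in atTop,
    (1 - δ) * (((2 * MM k N : ℕ) : ℝ) ^ (k + 1) / (k + 1).factorial * (N / Real.log N ^ (k + 1))) ≤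
    ∑ T ∈ (range (2 * MM k N)).powersetCard (k + 1), (piT T N : ℝ) := by
  -- choose `η`
  obtain ⟨η, hη, hη1, hη2⟩ : ∃ η : ℝ, 0 < η ∧ η < 1 ∧ 1 - δ ≤ (1 - η) ^ (k + 3) := by
    have c1 : ContinuousAt (fun η : ℝ => (1 - η) ^ (k + 3)) 0 := by fun_prop
    have e1 : ∀ᶠ η in 𝓝 (0:ℝ), 1 - δ < (1 - η) ^ (k + 3) := by
      apply c1.eventually_const_lt
      simp [hδ]
    have e3 : ∀ᶠ η in 𝓝 (0:ℝ), η < 1 := eventually_lt_nhds (by norm_num)
    obtain ⟨η, h1, h2, h3⟩ := ((e1.filter_mono nhdsWithin_le_nhds).and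
      ((e3.filter_mono nhdsWithin_le_nhds).and (self_mem_nhdsWithin (a := (0:ℝ)) (s := Set.Ioi 0)))).exists
    exact ⟨η, h3, h2, h1.le⟩
  have e1 := log_pow_le_N ((k : ℝ) + 2) (δ := η / (4 * (k + 8))) (by positivity)
  filter_upwards [pi_low (η := 1) (by norm_num), e1, tL.eventually_ge_atTop (max 2 ((k * (k + 1) / 2 : ℝ) / (η * (1 - η)))),
    eventually_ge_atTop 1] with N hpi he hL hN1
  set L := Real.log (N:ℝ) with hLdef
  have hL2 : 2 ≤ L := (le_max_left _ _).trans hL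
  have hLk := (le_max_right _ _).trans hL
  have hL0 : 0 < L := by linarith
  have hN0 : (0:ℝ) < N := by exact_mod_cast hN1
  set H := 2 * MM k N with hH
  have hHle : (H:ℝ) ≤ 4 * L ^ (k + 1) + 2 := by
    rw [hH]; unfold MM
    push_cast
    have := Nat.floor_le (show 0 ≤ 2 * L ^ (k + 1) by positivity)
    linarith
  have hHge : 2 * L ^ (k + 1) ≤ (H:ℝ) := by
    rw [hH]; unfold MM
    push_cast
    have := (Nat.lt_floor_add_one (2 * L ^ (k + 1))).le
    have : 0 ≤ L ^ (k + 1) := by positivity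
    linarith
  have hLL : L ≤ L ^ (k + 1) := le_self_pow₀ (by linarith) (by omega)
  have he' : L ^ (k + 2) ≤ η / (4 * (k + 8)) * N := by
    have : L ^ ((k:ℝ) + 2) = L ^ (k + 2) := by
      rw [← Real.rpow_natCast]; congr 1; push_cast; ring
    rw [← this]; exact he
  have hL1k : 1 ≤ L ^ (k + 1) := by linarith
  have hsmall : (H:ℝ) + (k + 1) ≤ η * (N / L) := by
    have h1 : (H:ℝ) + (k + 1) ≤ (k + 8) * L ^ (k + 1) := by nlinarith
    have h2 : L ^ (k + 1) ≤ η / (4 * (k + 8)) * N / L := by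
      rw [le_div_iff₀ hL0]
      calc L ^ (k + 1) * L = L ^ (k + 2) := by ring
        _ ≤ _ := he'
    calc (H:ℝ) + (k + 1) ≤ (k + 8) * L ^ (k + 1) := h1
      _ ≤ (k + 8) * (η / (4 * (k + 8)) * N / L) := by gcongr
      _ = η * (N / L) / 4 := by field_simp
      _ ≤ η * (N / L) := by
          have : 0 ≤ η * (N / L) := by positivity
          linarith
  have hNL : (N:ℝ) / L ≤ N := div_le_self hN0.le (by linarith)
  have hHN : H ≤ N := by
    have h1 : (H:ℝ) ≤ N := by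
      have : (0:ℝ) ≤ (k:ℝ) + 1 := by positivity
      have h2 : η * (N / L) ≤ 1 * (N / L) := by gcongr
      linarith
    exact_mod_cast h1
  have hpi' : (N:ℝ) / L ≤ (((Icc 1 N).filter (fun p : ℕ => p.Prime)).card : ℝ) := by
    simpa using hpi
  set y : ℝ := (1 - η) * (H / L) with hy
  have h1η : 0 < 1 - η := by linarith
  have hH0 : (0:ℝ) < H := by linarith
  have hy0 : 0 < y := by positivity
  have hw := window k N H hHN (y := y) hy0.le (by
    calc y * N = (1 - η) * (N / L) * H := by rw [hy]; ring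
      _ ≤ (H:ℝ) * ((((Icc 1 N).filter (fun p : ℕ => p.Prime)).card : ℝ) - H - (k + 1)) := by
          rw [mul_comm]
          apply mul_le_mul_of_nonneg_left _ hH0.le
          linarith)
  have hGG : (1 - η) * y ^ (k + 1) ≤ GG k y := by
    rw [GG_eq k hy0, mul_comm]
    apply mul_le_mul_of_nonneg_left _ (by positivity)
    refine le_trans ?_ (ph_ge k (by positivity : (0:ℝ) ≤ 1 / y))
    have h3 : (k * (k + 1) / 2 : ℝ) * (1 / y) ≤ η := by
      have h4 : L * (1 - η) ≤ y := by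
        rw [hy, mul_comm]
        apply mul_le_mul_of_nonneg_left _ h1η.le
        rw [le_div_iff₀ hL0]
        have h5 : L * L ≤ 2 * L ^ (k + 1) := by
          have h6 : L ^ 2 ≤ L ^ (k + 1) := pow_le_pow_right₀ (by linarith) (by omega)
          have h7 : 0 ≤ L ^ (k + 1) := by positivity
          calc L * L = L ^ 2 := by ring
            _ ≤ L ^ (k + 1) := h6
            _ ≤ _ := by linarith
        linarith
      rw [div_le_iff₀ (by positivity)] at hLk
      rw [mul_one_div, div_le_iff₀ hy0]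
      calc (k * (k + 1) / 2 : ℝ) ≤ L * (η * (1 - η)) := hLk
        _ = η * (L * (1 - η)) := by ring
        _ ≤ η * y := by gcongr
    linarith
  have hN' : (1 - η) * N ≤ (N:ℝ) - H - (k + 1) := by
    have h2 : η * (N / L) ≤ η * N := by gcongr
    linarith
  have hf : (0:ℝ) < (k + 1).factorial := by exact_mod_cast Nat.factorial_pos _
  have hfin : (1 - η) ^ (k + 3) * (N * (H / L) ^ (k + 1)) ≤
      (k + 1).factorial * ∑ T ∈ (range H).powersetCard (k + 1), (piT T N : ℝ) := by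
    refine le_trans ?_ hw
    calc (1 - η) ^ (k + 3) * (N * (H / L) ^ (k + 1)) = ((1 - η) * N) * ((1 - η) * y ^ (k + 1)) := by
          rw [hy, mul_pow]; ring
      _ ≤ _ := by
          apply mul_le_mul hN' hGG (by positivity)
          have : 0 ≤ (1 - η) * N := by positivity
          linarith
  calc (1 - δ) * ((H:ℝ) ^ (k + 1) / (k + 1).factorial * (N / L ^ (k + 1)))
      ≤ (1 - η) ^ (k + 3) * ((H:ℝ) ^ (k + 1) / (k + 1).factorial * (N / L ^ (k + 1))) := by gcongr
    _ = ((1 - η) ^ (k + 3) * (N * (H / L) ^ (k + 1))) / (k + 1).factorial := by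
        rw [div_pow]; ring
    _ ≤ _ := by
        rw [div_le_iff₀ hf]
        linarith

/-- the deviation of a pattern -/
noncomputable def dv (k N : ℕ) (T : Finset ℕ) : ℝ := |(piT T N : ℝ) - CT T * (N / Real.log N ^ (k + 1))|

lemma piT_dn (T : Finset ℕ) (hT : T.Nonempty) (hA : Adm T) (N : ℕ) : piT T N = pc (dn T) N := by
  have h := piT_add (zero_mem_dn hT) (sInf (T : Set ℕ)) N ((Adm_dn T).2 hA)
  rw [dn_add] at h
  exact h

lemma CT_not_adm {T : Finset ℕ} (h : ¬ Adm T) : CT T = 0 := by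
  have h4 := CT_nonneg T
  by_contra h5
  exact h ((CT_pos_iff _).1 (lt_of_le_of_ne h4 (Ne.symm h5)))

/-- all patterns in the window -/
lemma sum_dv (k : ℕ) (hk : 1 ≤ k) (h : ∀ B : ℝ, UN (k + 1) B 1) {δ : ℝ} (hδ : 0 < δ) (hδ1 : δ < 1) :
    ∀ᶠ N : ℕ in atTop, ∑ T ∈ (range (2 * MM k N)).powersetCard (k + 1), dv k N T ≤
      6 * δ * (((2 * MM k N : ℕ) : ℝ) ^ (k + 1) / (k + 1).factorial * (N / Real.log N ^ (k + 1))) := by
  filter_upwards [ct_up k hδ, pi_sum_low k hk hδ hδ1, h (k + 2) δ hδ, tL.eventually_ge_atTop 8] with N h1 h2 h3 hL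
  set L := Real.log (N:ℝ) with hLdef
  have hL0 : 0 < L := by linarith
  set P : ℝ := (N:ℝ) / L ^ (k + 1) with hP
  have hP0 : 0 ≤ P := by positivity
  have hf : (0:ℝ) < (k + 1).factorial := by exact_mod_cast Nat.factorial_pos _
  have hT : ∀ T ∈ (range (2 * MM k N)).powersetCard (k + 1), dv k N T ≤ (1 + 2 * δ) * (CT T * P) - piT T N := by
    intro T hT
    rw [mem_powersetCard] at hT
    have hne : T.Nonempty := by
      rw [← card_pos, hT.2]; omega
    by_cases hA : Adm T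
    · have h4 := h3 (dn T) (by rw [card_dn, hT.2]) (zero_mem_dn hne) (by
        intro t ht
        obtain ⟨a, ha, rfl⟩ := mem_image.1 ht
        have h5 : a < 2 * MM k N := mem_range.1 (hT.1 ha)
        have h6 : (((a - sInf (T : Set ℕ) : ℕ)) : ℝ) ≤ ((2 * MM k N : ℕ) : ℝ) := by
          exact_mod_cast (by omega : a - sInf (T : Set ℕ) ≤ 2 * MM k N)
        refine h6.trans ?_
        unfold MM
        push_cast
        have h7 := Nat.floor_le (show 0 ≤ 2 * L ^ (k + 1) by positivity)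
        have h8 : L ^ ((k:ℝ) + 2) = L ^ (k + 1) * L := by
          rw [show ((k:ℝ) + 2) = ((k + 2 : ℕ) : ℝ) by push_cast; ring, Real.rpow_natCast]; ring
        rw [h8]
        have h9 : 1 ≤ L ^ (k + 1) := one_le_pow₀ (by linarith)
        have h10 : L ^ (k + 1) * 8 ≤ L ^ (k + 1) * L := mul_le_mul_of_nonneg_left hL (by positivity)
        linarith) ((Adm_dn T).2 hA)
      rw [CT_dn, ← piT_dn T hne hA] at h4
      have h5 : 0 ≤ CT T * P := mul_nonneg (CT_nonneg T) hP0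
      unfold dv
      rw [abs_le]
      constructor
      · have h6 : 0 ≤ δ * (CT T * P) := by positivity
        linarith
      · linarith
    · have h4 : piT T N = 0 := by unfold piT; rw [if_neg hA]
      have h5 := CT_not_adm hA
      unfold dv
      rw [h4, h5]
      simp
  refine (sum_le_sum hT).trans ?_
  rw [sum_sub_distrib, ← mul_sum, ← sum_mul]
  set Q : ℝ := ((2 * MM k N : ℕ) : ℝ) ^ (k + 1) / (k + 1).factorial with hQ
  have hQ0 : 0 ≤ Q := by positivity
  have hQP : 0 ≤ Q * P := by positivity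
  calc (1 + 2 * δ) * ((∑ T ∈ (range (2 * MM k N)).powersetCard (k + 1), CT T) * P) -
        ∑ T ∈ (range (2 * MM k N)).powersetCard (k + 1), (piT T N : ℝ)
      ≤ (1 + 2 * δ) * (((1 + δ) * Q) * P) - (1 - δ) * (Q * P) := by
        apply sub_le_sub _ h2
        gcongr
    _ = (4 * δ + 2 * δ ^ 2) * (Q * P) := by ring
    _ ≤ 6 * δ * (Q * P) := by
        apply mul_le_mul_of_nonneg_right _ hQP
        nlinarith

/-- from the patterns to the sets of shifts -/
lemma sum_shifts (k N : ℕ) : (MM k N : ℝ) * ∑ D ∈ (Icc 1 (MM k N)).powersetCard k,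
      |(pc (insert 0 D) N : ℝ) - CT (insert 0 D) * (N / Real.log N ^ (k + 1))| ≤
    ∑ T ∈ (range (2 * MM k N)).powersetCard (k + 1), dv k N T + MM k N * ((MM k N : ℝ) ^ k * (k + 1)) := by
  classical
  set M := MM k N with hM
  set P : ℝ := (N:ℝ) / Real.log N ^ (k + 1) with hP
  have h0 : ∀ D ∈ (Icc 1 M).powersetCard k, 0 ∉ D := by
    intro D hD h
    have := (mem_powersetCard.1 hD).1 h
    rw [mem_Icc] at this
    omega
  have hc : ∀ D ∈ (Icc 1 M).powersetCard k, (insert 0 D).card = k + 1 := by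
    intro D hD
    rw [card_insert_of_notMem (h0 D hD), (mem_powersetCard.1 hD).2]
  -- each shift set
  have h1 : ∀ D ∈ (Icc 1 M).powersetCard k, ∀ m, |(pc (insert 0 D) N : ℝ) - CT (insert 0 D) * P| ≤
      dv k N ((insert 0 D).image (· + m)) + (k + 1) := by
    intro D hD m
    unfold dv
    rw [CT_add]
    by_cases hA : Adm (insert 0 D)
    · rw [piT_add (mem_insert_self 0 D) m N hA]
      have : (0:ℝ) ≤ (k:ℝ) + 1 := by positivity
      linarith
    · have h4 : piT ((insert 0 D).image (· + m)) N = 0 := by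
        unfold piT; rw [if_neg (fun h => hA ((Adm_add _ m).1 h))]
      have h5 := CT_not_adm hA
      have h6 := pc_not_adm hA N
      rw [hc D hD] at h6
      rw [h4, h5]
      simp
      exact_mod_cast h6
  have h2 : ∑ m ∈ range M, ∑ D ∈ (Icc 1 M).powersetCard k, dv k N ((insert 0 D).image (· + m)) ≤
      ∑ T ∈ (range (2 * M)).powersetCard (k + 1), dv k N T := by
    rw [← sum_product']
    have hinj : Set.InjOn (fun q : ℕ × Finset ℕ => (insert 0 q.2).image (· + q.1))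
        ((range M ×ˢ (Icc 1 M).powersetCard k : Finset (ℕ × Finset ℕ)) : Set (ℕ × Finset ℕ)) := by
      rintro ⟨m, D⟩ hq ⟨m', D'⟩ hq' h
      rw [mem_coe, mem_product] at hq hq'
      dsimp only at h hq hq'
      have e1 := sInf_add (mem_insert_self 0 D) m
      have e2 := sInf_add (mem_insert_self 0 D') m'
      rw [h, e2] at e1
      subst e1
      have e3 : insert 0 D = insert 0 D' := by
        apply image_injective (add_left_injective m') h
      have e4 : D = D' := by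
        rw [← erase_insert (h0 D hq.2), ← erase_insert (h0 D' hq'.2), e3]
      rw [e4]
    rw [← sum_image (g := fun q : ℕ × Finset ℕ => (insert 0 q.2).image (· + q.1)) (f := fun T => dv k N T) hinj]
    apply sum_le_sum_of_subset_of_nonneg
    · intro T hT
      obtain ⟨⟨m, D⟩, hq, rfl⟩ := mem_image.1 hT
      rw [mem_product] at hq
      dsimp only at hq ⊢
      rw [mem_powersetCard, card_add, hc D hq.2]
      refine ⟨?_, rfl⟩
      intro t ht
      obtain ⟨d, hd, rfl⟩ := mem_image.1 ht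
      have h3 := mem_range.1 hq.1
      rw [mem_range]
      rcases mem_insert.1 hd with rfl | hd
      · omega
      · have := mem_Icc.1 ((mem_powersetCard.1 hq.2).1 hd)
        omega
    · intro T _ _
      exact abs_nonneg _
  have h3 : (((Icc 1 M).powersetCard k).card : ℝ) ≤ (M:ℝ) ^ k := by
    rw [card_powersetCard, Nat.card_Icc, Nat.add_sub_cancel]
    exact_mod_cast Nat.choose_le_pow M k
  calc (M : ℝ) * ∑ D ∈ (Icc 1 M).powersetCard k, |(pc (insert 0 D) N : ℝ) - CT (insert 0 D) * P|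
      = ∑ m ∈ range M, ∑ D ∈ (Icc 1 M).powersetCard k, |(pc (insert 0 D) N : ℝ) - CT (insert 0 D) * P| := by
        rw [sum_const, card_range, nsmul_eq_mul]
    _ ≤ ∑ m ∈ range M, ∑ D ∈ (Icc 1 M).powersetCard k, (dv k N ((insert 0 D).image (· + m)) + (k + 1)) := by
        apply sum_le_sum
        intro m _
        exact sum_le_sum fun D hD => h1 D hD m
    _ = (∑ m ∈ range M, ∑ D ∈ (Icc 1 M).powersetCard k, dv k N ((insert 0 D).image (· + m))) +
          M * ((((Icc 1 M).powersetCard k).card : ℝ) * (k + 1)) := by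
        simp_rw [sum_add_distrib]
        simp
        ring
    _ ≤ _ := by
        apply add_le_add h2
        gcongr

/-- **almost all sets of shifts** -/
theorem almost (k : ℕ) (hk : 1 ≤ k) (h : ∀ B : ℝ, UN (k + 1) B 1) {ε : ℝ} (hε : 0 < ε) :
    ∀ᶠ N : ℕ in atTop, ∑ D ∈ (Icc 1 (MM k N)).powersetCard k,
      |(pc (insert 0 D) N : ℝ) - CT (insert 0 D) * (N / Real.log N ^ (k + 1))| ≤
      ε * ((Real.log N ^ (k + 1)) ^ k * (N / Real.log N ^ (k + 1))) := by
  set δ : ℝ := min (1 / 2) (ε / (2 * (6 * 2 ^ (k + 1) * 3 ^ k))) with hδ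
  have hδ0 : 0 < δ := lt_min (by norm_num) (by positivity)
  have hδ1 : δ < 1 := lt_of_le_of_lt (min_le_left _ _) (by norm_num)
  have hδ2 : δ * (6 * 2 ^ (k + 1) * 3 ^ k) ≤ ε / 2 := by
    have := min_le_right (1 / 2) (ε / (2 * (6 * 2 ^ (k + 1) * 3 ^ k)))
    rw [← hδ, le_div_iff₀ (by positivity)] at this
    linarith
  have e1 := log_pow_le_N ((k : ℝ) + 1) (δ := ε / (2 * (3 ^ k * (k + 1)))) (by positivity)
  filter_upwards [sum_dv k hk h hδ0 hδ1, e1, tL.eventually_ge_atTop 1] with N h1 e1 hL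
  have h2 := sum_shifts k N
  set L := Real.log (N:ℝ) with hLdef
  have hL0 : 0 < L := by linarith
  set M := MM k N with hM
  set P : ℝ := (N:ℝ) / L ^ (k + 1) with hP
  have hP0 : 0 ≤ P := by positivity
  have hLk : 1 ≤ L ^ (k + 1) := one_le_pow₀ hL
  have hM1 : 1 ≤ (M:ℝ) := by
    rw [hM]; unfold MM
    push_cast
    have : (0:ℝ) ≤ (⌊2 * L ^ (k + 1)⌋₊ : ℝ) := Nat.cast_nonneg _
    linarith
  have hM0 : (0:ℝ) < M := by linarith
  have hM2 : (M:ℝ) ≤ 3 * L ^ (k + 1) := by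
    rw [hM]; unfold MM
    push_cast
    have := Nat.floor_le (show 0 ≤ 2 * L ^ (k + 1) by positivity)
    linarith
  have hf : (1:ℝ) ≤ (k + 1).factorial := by exact_mod_cast Nat.factorial_pos _
  set S := ∑ D ∈ (Icc 1 M).powersetCard k, |(pc (insert 0 D) N : ℝ) - CT (insert 0 D) * P| with hS
  have h3 : (M:ℝ) * S ≤ M * (6 * δ * 2 ^ (k + 1) * ((M:ℝ) ^ k * P) + (M:ℝ) ^ k * (k + 1)) := by
    calc (M:ℝ) * S ≤ _ := h2
      _ ≤ 6 * δ * (((2 * M : ℕ) : ℝ) ^ (k + 1) / (k + 1).factorial * P) + M * ((M:ℝ) ^ k * (k + 1)) := by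
          linarith
      _ ≤ 6 * δ * (((2 * M : ℕ) : ℝ) ^ (k + 1) / 1 * P) + M * ((M:ℝ) ^ k * (k + 1)) := by
          gcongr
      _ = _ := by
          push_cast
          rw [mul_pow, pow_succ (M:ℝ) k]
          ring
  have h4 := le_of_mul_le_mul_left h3 hM0
  have h5 : (M:ℝ) ^ k ≤ 3 ^ k * (L ^ (k + 1)) ^ k := by
    rw [← mul_pow]
    exact pow_le_pow_left₀ hM0.le hM2 k
  have h6 : (M:ℝ) ^ k * (k + 1) ≤ ε / 2 * ((L ^ (k + 1)) ^ k * P) := by
    have h7 : L ^ (k + 1) ≤ ε / (2 * (3 ^ k * (k + 1))) * N := by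
      have : L ^ ((k:ℝ) + 1) = L ^ (k + 1) := by
        rw [← Real.rpow_natCast]; congr 1; push_cast; ring
      rw [← this]; exact e1
    have h8 : 3 ^ k * (k + 1 : ℝ) ≤ ε / 2 * P := by
      rw [hP]
      have h9 : (3 ^ k * (k + 1 : ℝ)) * L ^ (k + 1) ≤ ε / 2 * N := by
        calc (3 ^ k * (k + 1 : ℝ)) * L ^ (k + 1) ≤ (3 ^ k * (k + 1 : ℝ)) * (ε / (2 * (3 ^ k * (k + 1))) * N) := by
              gcongr
          _ = ε / 2 * N := by field_simp
      calc 3 ^ k * (k + 1 : ℝ) = ((3 ^ k * (k + 1 : ℝ)) * L ^ (k + 1)) / L ^ (k + 1) := by field_simp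
        _ ≤ (ε / 2 * N) / L ^ (k + 1) := by gcongr
        _ = _ := by ring
    calc (M:ℝ) ^ k * (k + 1) ≤ (3 ^ k * (L ^ (k + 1)) ^ k) * (k + 1) := by gcongr
      _ = (L ^ (k + 1)) ^ k * (3 ^ k * (k + 1 : ℝ)) := by ring
      _ ≤ (L ^ (k + 1)) ^ k * (ε / 2 * P) := by gcongr
      _ = _ := by ring
  calc S ≤ 6 * δ * 2 ^ (k + 1) * ((M:ℝ) ^ k * P) + (M:ℝ) ^ k * (k + 1) := h4
    _ ≤ 6 * δ * 2 ^ (k + 1) * ((3 ^ k * (L ^ (k + 1)) ^ k) * P) + ε / 2 * ((L ^ (k + 1)) ^ k * P) := by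
        gcongr
    _ = (δ * (6 * 2 ^ (k + 1) * 3 ^ k)) * ((L ^ (k + 1)) ^ k * P) + ε / 2 * ((L ^ (k + 1)) ^ k * P) := by ring
    _ ≤ ε / 2 * ((L ^ (k + 1)) ^ k * P) + ε / 2 * ((L ^ (k + 1)) ^ k * P) := by gcongr
    _ = _ := by ring

end Pool.Agent.H606.TP
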