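import Pool.Agent.H606.TP.Alm

set_option autoImplicit false

/-! # From natural numbers to real numbers -/

namespace Pool.Agent.H606.TP

open Finset Filter Topology Pool.Agent.H387R2 Pool.Agent.H387R2.Uni Pool.Agent.TH891.SG

lemma log_floor_ratio : Tendsto (fun x : ℝ => Real.log ⌊x⌋₊ / Real.log x) atTop (𝓝 1) := by
  have h1 : Tendsto (fun x : ℝ => (⌊x⌋₊ : ℝ) / x) atTop (𝓝 1) := tendsto_nat_floor_div_atTop
  have h2 : Tendsto (fun x : ℝ => Real.log ((⌊x⌋₊ : ℝ) / x)) atTop (𝓝 0) := by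
    have := (Real.continuousAt_log (by norm_num : (1:ℝ) ≠ 0)).tendsto.comp h1
    rw [Real.log_one] at this
    exact this
  have h3 : Tendsto (fun x : ℝ => 1 + Real.log ((⌊x⌋₊ : ℝ) / x) / Real.log x) atTop (𝓝 (1 + 0)) := by
    apply Tendsto.const_add
    exact h2.div_atTop Real.tendsto_log_atTop
  rw [add_zero] at h3
  refine h3.congr' ?_
  filter_upwards [eventually_ge_atTop 2] with x hx
  have hx0 : 0 < x := by linarith
  have hfl : (0:ℝ) < (⌊x⌋₊ : ℝ) := by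
    have : 0 < ⌊x⌋₊ := Nat.floor_pos.2 (by linarith)
    exact_mod_cast this
  have hlog : 0 < Real.log x := Real.log_pos (by linarith)
  rw [Real.log_div hfl.ne' hx0.ne']
  field_simp
  ring

lemma main_ratio (r : ℕ) : Tendsto (fun x : ℝ => ((⌊x⌋₊ : ℝ) / Real.log ⌊x⌋₊ ^ r) / (x / Real.log x ^ r)) atTop (𝓝 1) := by
  have h1 : Tendsto (fun x : ℝ => (⌊x⌋₊ : ℝ) / x) atTop (𝓝 1) := tendsto_nat_floor_div_atTop
  have h2 := (log_floor_ratio.pow r).inv₀ (by simp)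
  have h3 := h1.mul h2
  simp only [one_pow, inv_one, mul_one] at h3
  refine h3.congr' ?_
  filter_upwards [eventually_ge_atTop 2] with x hx
  have hx0 : 0 < x := by linarith
  have hlog : 0 < Real.log x := Real.log_pos (by linarith)
  rw [div_pow, inv_div, div_div_eq_mul_div]
  ring

lemma exp_ratio {A' A : ℝ} (h : A' < A) : ∀ᶠ x : ℝ in atTop, Real.log x ^ A' ≤ Real.log ⌊x⌋₊ ^ A := by
  have h1 : Tendsto (fun x : ℝ => (Real.log ⌊x⌋₊ / Real.log x) ^ A') atTop (𝓝 ((1:ℝ) ^ A')) :=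
    log_floor_ratio.rpow_const (Or.inl one_ne_zero)
  rw [Real.one_rpow] at h1
  have e1 : ∀ᶠ x : ℝ in atTop, 1 / 2 < (Real.log ⌊x⌋₊ / Real.log x) ^ A' :=
    h1.eventually_const_lt (by norm_num)
  have t1 : Tendsto (fun x : ℝ => Real.log ⌊x⌋₊ ^ (A - A')) atTop atTop :=
    (tendsto_rpow_atTop (by linarith)).comp (Real.tendsto_log_atTop.comp
      (tendsto_natCast_atTop_atTop.comp tendsto_nat_floor_atTop))
  filter_upwards [e1, t1.eventually_ge_atTop 2, eventually_ge_atTop 3] with x h2 h3 h4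
  have hlog : 0 < Real.log x := Real.log_pos (by linarith)
  have hfl : (3:ℝ) ≤ (⌊x⌋₊ : ℝ) := by
    have : 3 ≤ ⌊x⌋₊ := Nat.le_floor (by exact_mod_cast h4)
    exact_mod_cast this
  have hlog2 : 0 < Real.log (⌊x⌋₊ : ℝ) := Real.log_pos (by linarith)
  rw [Real.div_rpow hlog2.le hlog.le, lt_div_iff₀ (Real.rpow_pos_of_pos hlog _)] at h2
  have h5 : Real.log (⌊x⌋₊ : ℝ) ^ A = Real.log (⌊x⌋₊ : ℝ) ^ A' * Real.log (⌊x⌋₊ : ℝ) ^ (A - A') := by
    rw [← Real.rpow_add hlog2]; congr 1; ring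
  rw [h5]
  have h6 : 0 < Real.log (⌊x⌋₊ : ℝ) ^ A' := Real.rpow_pos_of_pos hlog2 _
  have h7 : Real.log (⌊x⌋₊ : ℝ) ^ A' * 2 ≤ Real.log (⌊x⌋₊ : ℝ) ^ A' * Real.log (⌊x⌋₊ : ℝ) ^ (A - A') :=
    mul_le_mul_of_nonneg_left h3 h6.le
  linarith

lemma two_le_of {T : Finset ℕ} (h0 : 0 ∈ T) (hA : Adm T) {t : ℕ} (ht : t ∈ T) (ht0 : t ≠ 0) : 2 ≤ t := by
  by_contra h
  have : t = 1 := by omega
  subst this
  have h1 := (CT_pos_iff T).2 hA
  rw [CT_01 h0 ht] at h1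
  exact lt_irrefl _ h1

end Pool.Agent.H606.TP
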