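import Mathlib

set_option autoImplicit false

/-! # Moments of the number of elements of a set in windows, and translates of a pattern -/

namespace Pool.Agent.H606.TP

open Finset

/-- the number of `s` in `[1, H]` with `u + s ∈ G` -/
def X (G : Finset ℕ) (H u : ℕ) : ℕ := ((Icc 1 H).filter (fun s => u + s ∈ G)).card

/-- the `j`-th moment -/
def Mom (G : Finset ℕ) (N H j : ℕ) : ℕ := ∑ u ∈ range N, X G H u ^ j

/-- the number of `u < N` with all `u + s i` in `G` -/
def Nn (G : Finset ℕ) (N : ℕ) {j : ℕ} (s : Fin j → ℕ) : ℕ :=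
  ((range N).filter (fun u => ∀ i, u + s i ∈ G)).card

/-- all vectors with entries in `[1, H]` -/
def Box (H j : ℕ) : Finset (Fin j → ℕ) := Fintype.piFinset (fun _ : Fin j => Icc 1 H)

/-- the translates of `T` by the entries of `s` are not disjoint -/
def Deg (T : Finset ℕ) {j : ℕ} (s : Fin j → ℕ) : Prop :=
  ∃ i i' : Fin j, i ≠ i' ∧ ∃ d ∈ T, ∃ d' ∈ T, s i + d' = s i' + d

/-- the union of the translates of `T` by the entries of `s` -/
def U (T : Finset ℕ) {j : ℕ} (s : Fin j → ℕ) : Finset ℕ :=
  univ.biUnion (fun i => T.image (· + s i))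

lemma mem_U {T : Finset ℕ} {j : ℕ} {s : Fin j → ℕ} {t : ℕ} : t ∈ U T s ↔ ∃ i, ∃ d ∈ T, d + s i = t := by
  simp [U]

lemma card_Box (H j : ℕ) : (Box H j).card = H ^ j := by
  simp [Box]

lemma mom_eq (G : Finset ℕ) (N H j : ℕ) : Mom G N H j = ∑ s ∈ Box H j, Nn G N s := by
  unfold Mom Nn Box
  simp_rw [card_filter]
  rw [sum_comm]
  apply sum_congr rfl
  intro u _
  have h1 : X G H u ^ j = ∏ _i : Fin j, ∑ s ∈ Icc 1 H, if u + s ∈ G then 1 else 0 := by
    unfold X
    rw [card_filter]
    simp
  rw [h1, Finset.prod_univ_sum]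
  apply sum_congr rfl
  intro s _
  rw [Finset.prod_ite_zero]
  simp

lemma mom_zero (G : Finset ℕ) (N H : ℕ) : Mom G N H 0 = N := by
  simp [Mom]

lemma mom_one_le (G : Finset ℕ) (N H : ℕ) : Mom G N H 1 ≤ H * G.card := by
  unfold Mom X
  simp_rw [pow_one, card_filter]
  rw [sum_comm]
  calc ∑ s ∈ Icc 1 H, ∑ u ∈ range N, (if u + s ∈ G then 1 else 0)
      ≤ ∑ s ∈ Icc 1 H, G.card := by
        apply sum_le_sum
        intro s _
        rw [← card_filter]
        apply card_le_card_of_injOn (fun u => u + s)
        · intro u hu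
          have := (mem_filter.1 hu).2
          exact this
        · intro u _ v _ h
          simpa using h
    _ = H * G.card := by simp

lemma mom_one_ge (G : Finset ℕ) (N H : ℕ) (hG : ∀ g ∈ G, g ≤ N) :
    H * G.card ≤ Mom G N H 1 + H * (H + 1) := by
  unfold Mom X
  simp_rw [pow_one, card_filter]
  rw [sum_comm]
  calc H * G.card = ∑ s ∈ Icc 1 H, G.card := by simp
    _ ≤ ∑ s ∈ Icc 1 H, ((∑ u ∈ range N, if u + s ∈ G then 1 else 0) + (H + 1)) := by
        apply sum_le_sum
        intro s hs
        rw [mem_Icc] at hs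
        rw [← card_filter]
        have h1 : G ⊆ (((range N).filter (fun u => u + s ∈ G)).image (· + s)) ∪ range (H + 1) := by
          intro g hg
          rw [mem_union, mem_image, mem_range]
          by_cases h : g < H + 1
          · right; exact h
          · left
            refine ⟨g - s, ?_, by omega⟩
            rw [mem_filter, mem_range]
            have := hG g hg
            refine ⟨by omega, ?_⟩
            have : g - s + s = g := by omega
            rw [this]; exact hg
        refine (card_le_card h1).trans ((card_union_le _ _).trans ?_)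
        rw [card_range]
        exact Nat.add_le_add_right card_image_le _
    _ = _ := by
        rw [sum_add_distrib]
        simp

/-- the number of degenerate vectors with entries in a set -/
lemma deg_card (T R : Finset ℕ) (m : ℕ) :
    letI := Classical.decPred (fun s : Fin (m + 1) → ℕ => Deg T s)
    ((Fintype.piFinset (fun _ : Fin (m + 1) => R)).filter (fun s => Deg T s)).card ≤
      (m + 1) ^ 2 * T.card ^ 2 * R.card ^ m := by
  classical
  have h1 : (Fintype.piFinset (fun _ : Fin (m + 1) => R)).filter (fun s => Deg T s) ⊆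
      ((univ : Finset (Fin (m + 1) × Fin (m + 1))) ×ˢ (T ×ˢ T)).biUnion (fun q =>
        (Fintype.piFinset (fun _ : Fin (m + 1) => R)).filter
          (fun s => q.1.1 ≠ q.1.2 ∧ s q.1.1 + q.2.2 = s q.1.2 + q.2.1)) := by
    intro s hs
    rw [mem_filter] at hs
    obtain ⟨hs1, i, i', hi, d, hd, d', hd', h⟩ := hs
    rw [mem_biUnion]
    refine ⟨((i, i'), (d, d')), ?_, ?_⟩
    · simp [hd, hd']
    · rw [mem_filter]
      exact ⟨hs1, hi, h⟩
  have h2 : ∀ q ∈ ((univ : Finset (Fin (m + 1) × Fin (m + 1))) ×ˢ (T ×ˢ T)),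
      ((Fintype.piFinset (fun _ : Fin (m + 1) => R)).filter
          (fun s => q.1.1 ≠ q.1.2 ∧ s q.1.1 + q.2.2 = s q.1.2 + q.2.1)).card ≤ R.card ^ m := by
    rintro ⟨⟨i, i'⟩, ⟨d, d'⟩⟩ _
    dsimp only
    by_cases hii : i = i'
    · simp [hii]
    · have h3 : ((Fintype.piFinset (fun _ : Fin m => R))).card = R.card ^ m := by simp
      rw [← h3]
      apply card_le_card_of_injOn (fun s l => s (i.succAbove l))
      · intro s hs
        have hs' := (mem_filter.1 hs).1
        rw [Fintype.mem_piFinset] at hs'
        rw [mem_coe, Fintype.mem_piFinset]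
        intro l
        exact hs' _
      · intro s hs s' hs' h
        have e1 := (mem_filter.1 hs).2.2
        have e2 := (mem_filter.1 hs').2.2
        obtain ⟨l, hl⟩ := Fin.exists_succAbove_eq (Ne.symm hii)
        funext a
        by_cases ha : a = i
        · subst ha
          have h4 : s (a.succAbove l) = s' (a.succAbove l) := congrFun h l
          rw [hl] at h4
          omega
        · obtain ⟨b, hb⟩ := Fin.exists_succAbove_eq ha
          rw [← hb]
          exact congrFun h b
  refine (card_le_card h1).trans (card_biUnion_le.trans ((sum_le_sum h2).trans ?_))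
  rw [sum_const, smul_eq_mul, card_product, card_product, card_univ, Fintype.card_prod, Fintype.card_fin]
  apply le_of_eq
  ring

lemma deg_sum (T G : Finset ℕ) (N H m : ℕ) :
    letI := Classical.decPred (fun s : Fin (m + 1) → ℕ => Deg T s)
    ∑ s ∈ (Box H (m + 1)).filter (fun s => Deg T s), Nn G N s ≤
      (m + 1) ^ 2 * T.card ^ 2 * Mom G N H m := by
  classical
  unfold Mom Nn
  simp_rw [card_filter (fun u => ∀ i, u + _ ∈ G)]
  rw [sum_comm, mul_sum]
  apply sum_le_sum
  intro u _
  have h := deg_card T ((Icc 1 H).filter (fun s => u + s ∈ G)) m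
  refine le_trans ?_ h
  rw [← card_filter, filter_filter]
  apply card_le_card
  intro s hs
  rw [mem_filter] at hs
  rw [mem_filter, Fintype.mem_piFinset]
  refine ⟨fun i => ?_, hs.2.1⟩
  rw [mem_filter]
  exact ⟨(Fintype.mem_piFinset.1 hs.1) i, hs.2.2 i⟩

lemma card_U {T : Finset ℕ} {j : ℕ} {s : Fin j → ℕ} (h : ¬ Deg T s) : (U T s).card = j * T.card := by
  unfold U
  rw [card_biUnion]
  · have : ∀ i : Fin j, (T.image (· + s i)).card = T.card := fun i =>
      card_image_of_injective _ (fun a b hab => by simpa using hab)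
    simp [this]
  · intro i _ i' _ hii
    rw [Function.onFun, disjoint_left]
    intro a ha ha'
    rw [mem_image] at ha ha'
    obtain ⟨d, hd, h1⟩ := ha
    obtain ⟨d', hd', h2⟩ := ha'
    apply h
    exact ⟨i, i', hii, d', hd', d, hd, by omega⟩

lemma card_U_le (T : Finset ℕ) {j : ℕ} (s : Fin j → ℕ) : (U T s).card ≤ j * T.card := by
  unfold U
  refine card_biUnion_le.trans ?_
  calc ∑ i : Fin j, (T.image (· + s i)).card ≤ ∑ _i : Fin j, T.card := sum_le_sum fun i _ => card_image_le
    _ = j * T.card := by simp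

end Pool.Agent.H606.TP
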