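import Pool.Agent.H606.TP.Core
import Pool.Graph.R_seed8.TH891.SG.Cnt3

set_option autoImplicit false

/-! # Translates of a pattern and counts of prime tuples -/

namespace Pool.Agent.H606.TP

open Finset Pool.Agent.H387R2 Pool.Agent.H387R2.Uni Pool.Agent.TH891.SG

/-- the translate of `S` with least element `0` -/
noncomputable def dn (S : Finset ℕ) : Finset ℕ := S.image (· - sInf (S : Set ℕ))

lemma sInf_mem {S : Finset ℕ} (hS : S.Nonempty) : sInf (S : Set ℕ) ∈ S := by
  have := Nat.sInf_mem (s := (S : Set ℕ)) (by exact_mod_cast hS)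
  exact_mod_cast this

lemma sInf_le {S : Finset ℕ} {t : ℕ} (ht : t ∈ S) : sInf (S : Set ℕ) ≤ t :=
  Nat.sInf_le (by exact_mod_cast ht)

lemma zero_mem_dn {S : Finset ℕ} (hS : S.Nonempty) : 0 ∈ dn S := by
  unfold dn
  rw [mem_image]
  exact ⟨_, sInf_mem hS, Nat.sub_self _⟩

lemma dn_add (S : Finset ℕ) : (dn S).image (· + sInf (S : Set ℕ)) = S := by
  unfold dn
  rw [image_image]
  conv_rhs => rw [← image_id (s := S)]
  apply image_congr
  intro t ht
  have := sInf_le (mem_coe.1 ht)
  simp only [Function.comp, id]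
  omega

lemma card_dn (S : Finset ℕ) : (dn S).card = S.card := by
  conv_rhs => rw [← dn_add S]
  rw [card_add]

lemma CT_dn (S : Finset ℕ) : CT (dn S) = CT S := by
  conv_rhs => rw [← dn_add S]
  rw [CT_add]

lemma Adm_dn (S : Finset ℕ) : Adm (dn S) ↔ Adm S := by
  conv_rhs => rw [← dn_add S]
  rw [Adm_add]

lemma dn_le {S : Finset ℕ} {M : ℕ} (h : ∀ t ∈ S, t ≤ M) : ∀ t ∈ dn S, t ≤ M := by
  intro t ht
  obtain ⟨a, ha, rfl⟩ := mem_image.1 ht
  have := h a ha
  omega

/-- the set of the `m ≤ N` with all `m + t` prime -/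
def Gs (T : Finset ℕ) (N : ℕ) : Finset ℕ := (Icc 1 N).filter (fun m => ∀ t ∈ T, (m + t).Prime)

lemma card_Gs (T : Finset ℕ) (N : ℕ) : (Gs T N).card = pc T N := rfl

lemma Gs_le {T : Finset ℕ} {N g : ℕ} (h : g ∈ Gs T N) : g ≤ N := (mem_Icc.1 (mem_filter.1 h).1).2

lemma U_nonempty {T : Finset ℕ} (hT : 0 ∈ T) {j : ℕ} (s : Fin (j + 1) → ℕ) : (U T s).Nonempty :=
  ⟨s 0, mem_U.2 ⟨0, 0, hT, by simp⟩⟩

lemma Nn_le_pc {T : Finset ℕ} (hT : 0 ∈ T) {j : ℕ} (s : Fin (j + 1) → ℕ) (N : ℕ) :
    Nn (Gs T N) N s ≤ pc (dn (U T s)) N := by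
  have hne := U_nonempty hT s
  set σ := sInf (U T s : Set ℕ) with hσ
  obtain ⟨i0, d0, hd0, h0⟩ := mem_U.1 (sInf_mem hne)
  have hσi : σ = s i0 := by
    have h1 : σ ≤ s i0 := sInf_le (mem_U.2 ⟨i0, 0, hT, by simp⟩)
    omega
  unfold Nn pc
  apply card_le_card_of_injOn (fun u => u + σ)
  · intro u hu
    rw [mem_coe, mem_filter] at hu
    rw [mem_coe, mem_filter]
    obtain ⟨_, hu⟩ := hu
    refine ⟨?_, ?_⟩
    · have := hu i0
      unfold Gs at this
      rw [mem_filter] at this
      rw [hσi]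
      exact this.1
    · intro t ht
      obtain ⟨a, ha, rfl⟩ := mem_image.1 ht
      obtain ⟨i, d, hd, h1⟩ := mem_U.1 ha
      have h2 := hu i
      unfold Gs at h2
      rw [mem_filter] at h2
      have h3 := h2.2 d hd
      have h4 := sInf_le ha
      have : u + σ + (a - sInf ((U T s : Finset ℕ) : Set ℕ)) = u + s i + d := by omega
      rw [this]
      exact h3
  · intro a _ b _ hab
    simpa using hab

lemma pc_le_Nn {T : Finset ℕ} (hT : 0 ∈ T) {j : ℕ} {s : Fin (j + 1) → ℕ} {H : ℕ} (hs : s ∈ Box H (j + 1)) (N : ℕ) :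
    pc (dn (U T s)) N ≤ Nn (Gs T N) N s + 2 * H := by
  have hne := U_nonempty hT s
  set σ := sInf (U T s : Set ℕ) with hσ
  obtain ⟨i0, d0, hd0, h0⟩ := mem_U.1 (sInf_mem hne)
  have hσi : σ = s i0 := by
    have h1 : σ ≤ s i0 := sInf_le (mem_U.2 ⟨i0, 0, hT, by simp⟩)
    omega
  have hbox : ∀ i, 1 ≤ s i ∧ s i ≤ H := fun i => by
    have := (Fintype.mem_piFinset.1 hs) i
    exact mem_Icc.1 this
  have hσH : σ ≤ H := by rw [hσi]; exact (hbox i0).2
  have hσ1 : 1 ≤ σ := by rw [hσi]; exact (hbox i0).1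
  have hsub : (Icc 1 N).filter (fun m => ∀ t ∈ dn (U T s), (m + t).Prime) ⊆
      ((((range N).filter (fun u => ∀ i, u + s i ∈ Gs T N)).image (· + σ)) ∪ range (H + 1)) ∪ Ioc (N - H) N := by
    intro p hp
    rw [mem_filter, mem_Icc] at hp
    rw [mem_union, mem_union, mem_range, mem_Ioc]
    by_cases h1 : p < H + 1
    · left; right; exact h1
    · by_cases h2 : N - H < p
      · right; exact ⟨h2, hp.1.2⟩
      · left; left
        rw [mem_image]
        refine ⟨p - σ, ?_, by omega⟩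
        rw [mem_filter, mem_range]
        refine ⟨by omega, fun i => ?_⟩
        have hb := hbox i
        unfold Gs
        rw [mem_filter, mem_Icc]
        refine ⟨⟨by omega, by omega⟩, fun d hd => ?_⟩
        have ha : d + s i ∈ U T s := mem_U.2 ⟨i, d, hd, rfl⟩
        have h5 := sInf_le ha
        have h6 := hp.2 (d + s i - σ) (mem_image.2 ⟨d + s i, ha, rfl⟩)
        have : p - σ + s i + d = p + (d + s i - σ) := by omega
        rw [this]
        exact h6
  unfold pc Nn
  have h := card_le_card hsub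
  have h1 := card_union_le ((((range N).filter (fun u => ∀ i, u + s i ∈ Gs T N)).image (· + σ)) ∪ range (H + 1)) (Ioc (N - H) N)
  have h2 := card_union_le (((range N).filter (fun u => ∀ i, u + s i ∈ Gs T N)).image (· + σ)) (range (H + 1))
  have h3 := card_image_le (s := (range N).filter (fun u => ∀ i, u + s i ∈ Gs T N)) (f := (· + σ))
  rw [card_range] at h2
  rw [Nat.card_Ioc] at h1
  by_cases h4 : N ≤ 2 * H
  · refine (card_filter_le _ _).trans ?_
    simp
    omega
  · -- `0 ∉`
    have hsub' : (Icc 1 N).filter (fun m => ∀ t ∈ dn (U T s), (m + t).Prime) ⊆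
      ((((range N).filter (fun u => ∀ i, u + s i ∈ Gs T N)).image (· + σ)) ∪ Icc 1 H) ∪ Ioc (N - H) N := by
      intro p hp
      have h5 := hsub hp
      rw [mem_filter, mem_Icc] at hp
      rw [mem_union, mem_union, mem_range] at h5
      rw [mem_union, mem_union, mem_Icc]
      rcases h5 with (h5 | h5) | h5
      · left; left; exact h5
      · left; right; omega
      · right; exact h5
    have h := card_le_card hsub'
    have h1 := card_union_le ((((range N).filter (fun u => ∀ i, u + s i ∈ Gs T N)).image (· + σ)) ∪ Icc 1 H) (Ioc (N - H) N)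
    have h2 := card_union_le (((range N).filter (fun u => ∀ i, u + s i ∈ Gs T N)).image (· + σ)) (Icc 1 H)
    rw [Nat.card_Icc] at h2
    rw [Nat.card_Ioc] at h1
    omega

lemma pc_not_adm {S : Finset ℕ} (h : ¬ Adm S) (N : ℕ) : pc S N ≤ S.card := by
  unfold Adm at h
  push Not at h
  obtain ⟨p, hp, h⟩ := h
  have hpS : p ≤ S.card := h.trans card_image_le
  have hsurj : ∀ r < p, ∃ t ∈ S, t % p = r := by
    have h1 : S.image (· % p) = range p := by
      apply eq_of_subset_of_card_le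
      · intro r hr
        obtain ⟨t, _, rfl⟩ := mem_image.1 hr
        exact mem_range.2 (Nat.mod_lt _ hp.pos)
      · rw [card_range]; exact h
    intro r hr
    have : r ∈ S.image (· % p) := by rw [h1]; exact mem_range.2 hr
    obtain ⟨t, ht, h2⟩ := mem_image.1 this
    exact ⟨t, ht, h2⟩
  unfold pc
  have : (Icc 1 N).filter (fun m => ∀ s ∈ S, (m + s).Prime) ⊆ Icc 1 S.card := by
    intro m hm
    rw [mem_filter, mem_Icc] at hm
    rw [mem_Icc]
    refine ⟨hm.1.1, ?_⟩
    obtain ⟨t, ht, h2⟩ := hsurj ((p - m % p) % p) (Nat.mod_lt _ hp.pos)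
    have h3 : p ∣ m + t := by
      have hlt : m % p < p := Nat.mod_lt _ hp.pos
      rw [Nat.dvd_iff_mod_eq_zero, Nat.add_mod, h2]
      by_cases h0 : m % p = 0
      · simp [h0]
      · rw [Nat.mod_eq_of_lt (by omega : p - m % p < p)]
        have : m % p + (p - m % p) = p := by omega
        rw [this, Nat.mod_self]
    have h4 := (Nat.prime_dvd_prime_iff_eq hp (hm.2 t ht)).1 h3
    omega
  refine (card_le_card this).trans ?_
  simp

end Pool.Agent.H606.TP
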