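import Pool.Agent.H606.TP.Core2

set_option autoImplicit false

/-! # The mean of the truncated singular series over the translates -/

namespace Pool.Agent.H606.TP

open Finset Pool.Agent.H387R2 Pool.Agent.H387R2.Uni Pool.Agent.TH891.SG

/-- the number of `s` in `[1, H]` for which all `m + d + s`, `d ∈ T`, are prime to `W` -/
def cc (W : ℕ) (T : Finset ℕ) (H m : ℕ) : ℕ :=
  ((Icc 1 H).filter (fun s => ∀ d ∈ T, Nat.Coprime W (m + (d + s)))).card

lemma sum_gT (W : ℕ) (T : Finset ℕ) (H j : ℕ) :
    ∑ s ∈ Box H j, gT W (U T s) = ∑ m ∈ range W, cc W T H m ^ j := by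
  classical
  unfold gT Box
  simp_rw [card_filter]
  rw [sum_comm]
  apply sum_congr rfl
  intro m _
  have h1 : cc W T H m ^ j =
      ∏ _i : Fin j, ∑ s ∈ Icc 1 H, if (∀ d ∈ T, Nat.Coprime W (m + (d + s))) then 1 else 0 := by
    unfold cc
    rw [card_filter]
    simp
  rw [h1, Finset.prod_univ_sum]
  apply sum_congr rfl
  intro s _
  rw [Finset.prod_ite_zero]
  simp only [mem_univ, forall_const, prod_const_one]
  congr 1
  apply propext
  constructor
  · intro h i d hd
    exact h _ (mem_U.2 ⟨i, d, hd, rfl⟩)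
  · intro h t ht
    obtain ⟨i, d, hd, rfl⟩ := mem_U.1 ht
    exact h i d hd

lemma block_count (W : ℕ) (Q : ℕ → Prop) [DecidablePred Q] (hQ : Function.Periodic Q W) (a k : ℕ) :
    ((Ico a (a + k * W)).filter Q).card = k * ((range W).filter Q).card := by
  induction k with
  | zero => simp
  | succ k ih =>
    have h1 : Ico a (a + (k + 1) * W) = Ico a (a + k * W) ∪ Ico (a + k * W) (a + k * W + W) := by
      rw [Finset.Ico_union_Ico_eq_Ico (by omega) (by omega)]
      congr 1
      ring
    rw [h1, filter_union, card_union_of_disjoint, ih]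
    · have h2 := Nat.filter_Ico_card_eq_of_periodic (a + k * W) W Q hQ
      rw [h2, Nat.count_eq_card_filter_range]
      ring
    · apply disjoint_filter_filter
      rw [disjoint_left]
      intro x hx hx'
      rw [mem_Ico] at hx hx'
      omega

lemma cc_bounds {W : ℕ} (hW : 0 < W) (T : Finset ℕ) (H m : ℕ) :
    (H / W) * gT W T ≤ cc W T H m ∧ cc W T H m ≤ (H / W + 1) * gT W T := by
  classical
  set Q : ℕ → Prop := fun r => ∀ t ∈ T, Nat.Coprime W (r + t) with hQdef
  have hQ : Function.Periodic Q W := by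
    intro r
    apply propext
    constructor
    · intro h t ht
      have := h t ht
      have e : r + W + t = (r + t) + W := by ring
      rw [e, Nat.coprime_add_self_right] at this
      exact this
    · intro h t ht
      have e : r + W + t = (r + t) + W := by ring
      rw [e, Nat.coprime_add_self_right]
      exact h t ht
  have hcc : cc W T H m = ((Ico (m + 1) (m + 1 + H)).filter Q).card := by
    unfold cc
    apply card_bij (fun s _ => m + s)
    · intro s hs
      rw [mem_filter, mem_Icc] at hs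
      rw [mem_filter, mem_Ico]
      refine ⟨by omega, fun t ht => ?_⟩
      have := hs.2 t ht
      have e : m + s + t = m + (t + s) := by ring
      rw [e]; exact this
    · intro a _ b _ h
      simpa using h
    · intro b hb
      rw [mem_filter, mem_Ico] at hb
      refine ⟨b - m, ?_, by omega⟩
      rw [mem_filter, mem_Icc]
      refine ⟨by omega, fun t ht => ?_⟩
      have := hb.2 t ht
      have e : m + (t + (b - m)) = b + t := by omega
      rw [e]; exact this
  have hg : gT W T = ((range W).filter Q).card := rfl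
  have h1 : H / W * W ≤ H := Nat.div_mul_le_self _ _
  have h2 : H < (H / W + 1) * W := by
    have := Nat.lt_div_mul_add hW (a := H)
    rw [add_mul, one_mul]; exact this
  rw [hcc, hg]
  constructor
  · rw [← block_count W Q hQ (m + 1) (H / W)]
    apply card_le_card
    apply filter_subset_filter
    exact Ico_subset_Ico_right (by omega)
  · rw [← block_count W Q hQ (m + 1) (H / W + 1)]
    apply card_le_card
    apply filter_subset_filter
    exact Ico_subset_Ico_right (by omega)

/-- the truncated mean, upper bound -/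
lemma mean_upper {W : ℕ} (hW : 0 < W) (T : Finset ℕ) (H j : ℕ) :
    ∑ s ∈ Box H j, (gT W (U T s) : ℝ) ≤ W * ((H / W + 1) * gT W T : ℝ) ^ j := by
  have h := sum_gT W T H j
  have h1 : ∑ s ∈ Box H j, (gT W (U T s) : ℝ) = ∑ m ∈ range W, (cc W T H m : ℝ) ^ j := by
    exact_mod_cast h
  rw [h1]
  have hW0 : (0:ℝ) < W := by exact_mod_cast hW
  calc ∑ m ∈ range W, (cc W T H m : ℝ) ^ j ≤ ∑ m ∈ range W, ((H / W + 1) * gT W T : ℝ) ^ j := by
        apply sum_le_sum
        intro m _
        apply pow_le_pow_left₀ (Nat.cast_nonneg _)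
        have := (cc_bounds hW T H m).2
        have h2 : (cc W T H m : ℝ) ≤ ((H / W : ℕ) + 1) * gT W T := by exact_mod_cast this
        refine h2.trans ?_
        apply mul_le_mul_of_nonneg_right _ (Nat.cast_nonneg _)
        have : ((H / W : ℕ) : ℝ) ≤ (H:ℝ) / W := Nat.cast_div_le
        linarith
    _ = _ := by simp

/-- the truncated mean, lower bound -/
lemma mean_lower {W : ℕ} (hW : 0 < W) (T : Finset ℕ) {H : ℕ} (hH : W ≤ H) (j : ℕ) :
    W * ((H / W - 1) * gT W T : ℝ) ^ j ≤ ∑ s ∈ Box H j, (gT W (U T s) : ℝ) := by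
  have h := sum_gT W T H j
  have h1 : ∑ s ∈ Box H j, (gT W (U T s) : ℝ) = ∑ m ∈ range W, (cc W T H m : ℝ) ^ j := by
    exact_mod_cast h
  rw [h1]
  have hW0 : (0:ℝ) < W := by exact_mod_cast hW
  have hHr : (W:ℝ) ≤ H := by exact_mod_cast hH
  have h5 : 0 ≤ (H:ℝ) / W - 1 := by
    rw [sub_nonneg, le_div_iff₀ hW0]; linarith
  calc W * ((H / W - 1) * gT W T : ℝ) ^ j = ∑ m ∈ range W, ((H / W - 1) * gT W T : ℝ) ^ j := by simp
    _ ≤ ∑ m ∈ range W, (cc W T H m : ℝ) ^ j := by
        apply sum_le_sum
        intro m _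
        apply pow_le_pow_left₀ (mul_nonneg h5 (Nat.cast_nonneg _))
        have := (cc_bounds hW T H m).1
        have h2 : ((H / W : ℕ) : ℝ) * gT W T ≤ cc W T H m := by exact_mod_cast this
        refine le_trans ?_ h2
        apply mul_le_mul_of_nonneg_right _ (Nat.cast_nonneg _)
        have h6 : H < (H / W + 1) * W := by
          have := Nat.lt_div_mul_add hW (a := H)
          rw [add_mul, one_mul]; exact this
        have h7 : (H:ℝ) < (((H / W : ℕ) : ℝ) + 1) * W := by exact_mod_cast h6
        rw [← div_lt_iff₀ hW0] at h7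
        linarith

/-- the constants of admissible patterns with `n` elements are bounded from below -/
lemma CT_const (n : ℕ) : ∃ c : ℝ, 0 < c ∧ ∀ T : Finset ℕ, T.card = n → Adm T → c ≤ CT T := by
  set y : ℕ := max 1 (2 * n ^ 2) with hy
  refine ⟨1 / (2 * WW y), by have := WW_pos y; positivity, fun T hT hadm => ?_⟩
  have hy1 : 1 ≤ y := le_max_left _ _
  have h1 := CT_ge T y hy1 (by rw [hT]; exact le_max_right _ _)
  have hWpos : 0 < WW y := WW_pos y
  have hW0 : (0:ℝ) < WW y := by exact_mod_cast hWpos
  have hφ : 0 < Nat.totient (WW y) := Nat.totient_pos.2 hWpos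
  have hφ0 : (0:ℝ) < Nat.totient (WW y) := by exact_mod_cast hφ
  have hpos : 0 < ((WW y : ℝ) / Nat.totient (WW y)) ^ T.card * (gT (WW y) T / WW y) := by
    rw [← sy_en]
    unfold Pool.Agent.H386R2.HL.sy
    apply prod_pos
    intro p hp
    apply Pool.Agent.H386R2.HL.localFactor_pos _ (Nat.prime_of_mem_primesBelow hp)
    intro q hq
    rw [nu_en]
    exact hadm q hq
  have hg : 0 < gT (WW y) T := by
    by_contra h
    have h0 : gT (WW y) T = 0 := by omega
    rw [h0] at hpos
    simp at hpos
  have hg1 : (1:ℝ) ≤ gT (WW y) T := by exact_mod_cast hg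
  refine le_trans ?_ h1
  have h2 : (1:ℝ) ≤ ((WW y : ℝ) / Nat.totient (WW y)) ^ T.card := by
    apply one_le_pow₀
    rw [le_div_iff₀ hφ0, one_mul]
    exact_mod_cast Nat.totient_le _
  have h3 : 1 / (WW y : ℝ) ≤ ((WW y : ℝ) / Nat.totient (WW y)) ^ T.card * (gT (WW y) T / WW y) := by
    calc 1 / (WW y : ℝ) = 1 * (1 / (WW y : ℝ)) := by ring
      _ ≤ ((WW y : ℝ) / Nat.totient (WW y)) ^ T.card * (gT (WW y) T / WW y) := by
        apply mul_le_mul h2 _ (by positivity) (by positivity)
        exact div_le_div_of_nonneg_right hg1 hW0.le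
  calc 1 / (2 * (WW y : ℝ)) = (1 / (WW y : ℝ)) / 2 := by field_simp
    _ ≤ _ := div_le_div_of_nonneg_right h3 (by norm_num)

end Pool.Agent.H606.TP
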