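import Pool.Agent.H606.TP.SS

set_option autoImplicit false

/-! # The moments of the number of prime tuples in windows -/

namespace Pool.Agent.H606.TP

open Finset Filter Topology Pool.Agent.H387R2 Pool.Agent.H387R2.Uni Pool.Agent.TH891.SG

/-- upper half, up to the factor `K`, for patterns with `r` elements up to `(log N) ^ A` -/
def UN (r : ℕ) (A K : ℝ) : Prop := ∀ ε : ℝ, 0 < ε → ∀ᶠ N : ℕ in atTop, ∀ T : Finset ℕ, T.card = r → 0 ∈ T →
  (∀ t ∈ T, (t:ℝ) ≤ Real.log N ^ A) → Adm T → (pc T N : ℝ) ≤ (K + ε) * (CT T * (N / Real.log N ^ r))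

/-- lower half, up to the factor `c`, for patterns with `r` elements up to `(log N) ^ A` -/
def LN (r : ℕ) (A c : ℝ) : Prop := ∀ ε : ℝ, 0 < ε → ∀ᶠ N : ℕ in atTop, ∀ T : Finset ℕ, T.card = r → 0 ∈ T →
  (∀ t ∈ T, (t:ℝ) ≤ Real.log N ^ A) → Adm T → (c - ε) * (CT T * (N / Real.log N ^ r)) ≤ (pc T N : ℝ)

lemma X_pow_le (G : Finset ℕ) (N H m : ℕ) {R : ℝ} (hR : 0 < R) :
    (Mom G N H m : ℝ) ≤ Mom G N H (m + 1) / R + R ^ m * N := by
  unfold Mom
  push_cast
  rw [sum_div]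
  calc ∑ u ∈ range N, (X G H u : ℝ) ^ m ≤ ∑ u ∈ range N, ((X G H u : ℝ) ^ (m + 1) / R + R ^ m) := by
        apply sum_le_sum
        intro u _
        set x : ℝ := (X G H u : ℝ)
        have hx : 0 ≤ x := Nat.cast_nonneg _
        by_cases h : x ≤ R
        · have h1 : x ^ m ≤ R ^ m := pow_le_pow_left₀ hx h m
          have h2 : 0 ≤ x ^ (m + 1) / R := by positivity
          linarith
        · push Not at h
          have h1 : x ^ m ≤ x ^ (m + 1) / R := by
            rw [le_div_iff₀ hR, pow_succ]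
            exact mul_le_mul_of_nonneg_left h.le (by positivity)
          have h2 : 0 ≤ R ^ m := by positivity
          linarith
    _ = _ := by
        rw [sum_add_distrib]
        simp
        ring

/-- growth conditions -/
structure Gr (n m : ℕ) (A A' B c δ R : ℝ) (N : ℕ) : Prop where
  hL : 1 ≤ Real.log N
  hH : 1 ≤ ⌊Real.log N ^ B⌋₊
  hN : 1 ≤ N
  hA : Real.log N ^ A' + Real.log N ^ B ≤ Real.log N ^ A
  h1 : ((m + 1 : ℕ) * n : ℝ) * Real.log N ^ ((m + 1) * n) ≤ δ * N * c ^ (m + 1)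
  h2 : 2 * Real.log N ^ B * Real.log N ^ ((m + 1) * n) ≤ δ * N * c ^ (m + 1)
  h3 : R ≤ (⌊Real.log N ^ B⌋₊ : ℝ) * c / Real.log N ^ n
  h4 : Real.log N ^ B + 1 ≤ δ * c * (N / Real.log N ^ n)

lemma log_pow_le_N (κ : ℝ) {δ : ℝ} (hδ : 0 < δ) : ∀ᶠ N : ℕ in atTop, Real.log N ^ κ ≤ δ * N := by
  have h := (isLittleO_log_rpow_atTop (r := 1 / (|κ| + 1)) (by positivity)).def (c := 1) (by norm_num)
  have h2 : ∀ᶠ x : ℝ in atTop, 1 / δ ≤ x ^ (1 / (|κ| + 1)) :=
    (tendsto_rpow_atTop (by positivity)).eventually_ge_atTop _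
  have h3 : ∀ᶠ x : ℝ in atTop, Real.log x ^ κ ≤ δ * x := by
    filter_upwards [h, h2, eventually_ge_atTop (Real.exp 1)] with x hx hx2 hx3
    have hx0 : 0 < x := (Real.exp_pos 1).trans_le hx3
    have hl : 1 ≤ Real.log x := by
      rw [← Real.log_exp 1]; exact Real.log_le_log (Real.exp_pos 1) hx3
    rw [Real.norm_eq_abs, Real.norm_eq_abs, one_mul, abs_of_nonneg (by linarith),
      abs_of_nonneg (by positivity)] at hx
    have h5 : Real.log x ^ κ ≤ Real.log x ^ |κ| := Real.rpow_le_rpow_of_exponent_le hl (le_abs_self _)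
    have h6 : Real.log x ^ |κ| ≤ (x ^ (1 / (|κ| + 1))) ^ |κ| := Real.rpow_le_rpow (by linarith) hx (abs_nonneg _)
    have h7 : (x ^ (1 / (|κ| + 1))) ^ |κ| * (x ^ (1 / (|κ| + 1))) = x := by
      rw [← Real.rpow_mul hx0.le, ← Real.rpow_add hx0]
      have : 1 / (|κ| + 1) * |κ| + 1 / (|κ| + 1) = 1 := by field_simp
      rw [this, Real.rpow_one]
    have h8 : 0 ≤ (x ^ (1 / (|κ| + 1))) ^ |κ| := by positivity
    have h9 : 1 ≤ δ * x ^ (1 / (|κ| + 1)) := by
      rw [div_le_iff₀ hδ] at hx2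
      linarith
    calc Real.log x ^ κ ≤ (x ^ (1 / (|κ| + 1))) ^ |κ| * 1 := by linarith
      _ ≤ (x ^ (1 / (|κ| + 1))) ^ |κ| * (δ * x ^ (1 / (|κ| + 1))) := by gcongr
      _ = δ * ((x ^ (1 / (|κ| + 1))) ^ |κ| * (x ^ (1 / (|κ| + 1)))) := by ring
      _ = δ * x := by rw [h7]
  exact tendsto_natCast_atTop_atTop.eventually h3

lemma gr_ev (n m : ℕ) {A A' B c δ : ℝ} (R : ℝ) (hBn : (n:ℝ) < B) (hBA : B < A) (hA' : A' < A)
    (hδ : 0 < δ) (hc : 0 < c) :
    ∀ᶠ N : ℕ in atTop, Gr n m A A' B c δ R N := by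
  have hB0 : 0 < B := lt_of_le_of_lt (Nat.cast_nonneg _) hBn
  have hcm : 0 < c ^ (m + 1) := by positivity
  have e1 := log_pow_le_N (((m + 1) * n : ℕ) : ℝ) (δ := δ * c ^ (m + 1) / ((m + 1 : ℕ) * n + 1)) (by positivity)
  have e2 := log_pow_le_N (B + ((m + 1) * n : ℕ)) (δ := δ * c ^ (m + 1) / 2) (by positivity)
  have e4 := log_pow_le_N (B + (n : ℕ)) (δ := δ * c / 2) (by positivity)
  have t1 : ∀ᶠ L : ℝ in atTop, 2 * (R / c) + 2 ≤ L ^ (B - n) :=
    (tendsto_rpow_atTop (by linarith)).eventually_ge_atTop _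
  have t1' : ∀ᶠ L : ℝ in atTop, 2 ≤ L ^ B := (tendsto_rpow_atTop hB0).eventually_ge_atTop _
  have t2 : ∀ᶠ L : ℝ in atTop, 2 ≤ L ^ (A - max A' B) :=
    (tendsto_rpow_atTop (by
      have : max A' B < A := max_lt hA' hBA
      linarith)).eventually_ge_atTop _
  filter_upwards [e1, e2, e4, tL.eventually t1, tL.eventually t1', tL.eventually t2,
    tL.eventually_ge_atTop 1, eventually_ge_atTop 1] with N e1 e2 e4 t1 t1' t2 hL hN
  set L := Real.log (N:ℝ) with hLdef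
  have hL0 : 0 < L := by linarith
  have hH : L ^ B / 2 ≤ (⌊L ^ B⌋₊ : ℝ) := by
    have h5 := Nat.lt_floor_add_one (L ^ B)
    linarith
  refine ⟨hL, ?_, hN, ?_, ?_, ?_, ?_, ?_⟩
  · exact Nat.le_floor (by push_cast; linarith)
  · have h5 : L ^ A' ≤ L ^ max A' B := Real.rpow_le_rpow_of_exponent_le hL (le_max_left _ _)
    have h6 : L ^ B ≤ L ^ max A' B := Real.rpow_le_rpow_of_exponent_le hL (le_max_right _ _)
    have h7 : 0 < L ^ max A' B := Real.rpow_pos_of_pos hL0 _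
    have h8 : L ^ A = L ^ max A' B * L ^ (A - max A' B) := by
      rw [← Real.rpow_add hL0]; congr 1; ring
    rw [h8]
    have h9 : L ^ max A' B * 2 ≤ L ^ max A' B * L ^ (A - max A' B) := mul_le_mul_of_nonneg_left t2 h7.le
    linarith
  · rw [Real.rpow_natCast] at e1
    have h5 : (0:ℝ) < (m + 1 : ℕ) * n + 1 := by positivity
    have h6 : δ * c ^ (m + 1) / ((m + 1 : ℕ) * n + 1) * N = (δ * N * c ^ (m + 1)) / ((m + 1 : ℕ) * n + 1) := by ring
    rw [h6, le_div_iff₀ h5] at e1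
    have h7 : 0 ≤ L ^ ((m + 1) * n) := by positivity
    calc ((m + 1 : ℕ) * n : ℝ) * L ^ ((m + 1) * n) ≤ L ^ ((m + 1) * n) * (((m + 1 : ℕ) : ℝ) * n + 1) := by
          linarith
      _ ≤ _ := e1
  · rw [Real.rpow_add hL0, Real.rpow_natCast] at e2
    linarith
  · rw [le_div_iff₀ (by positivity)]
    have h8 : L ^ B = L ^ (n:ℕ) * L ^ (B - n) := by
      rw [← Real.rpow_natCast L n, ← Real.rpow_add hL0]; congr 1; ring
    rw [h8] at hH
    have h9 : R * L ^ n ≤ (L ^ n * L ^ (B - n) / 2) * c := by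
      have : R ≤ c * L ^ (B - n) / 2 := by
        have h10 : 2 * (R / c) ≤ L ^ (B - n) := by linarith
        have h11 : c * (2 * (R / c)) ≤ c * L ^ (B - n) := mul_le_mul_of_nonneg_left h10 hc.le
        have h12 : c * (2 * (R / c)) = 2 * R := by field_simp
        linarith
      have h13 : 0 < L ^ n := by positivity
      calc R * L ^ n ≤ (c * L ^ (B - n) / 2) * L ^ n := by gcongr
        _ = _ := by ring
    rw [← h8] at hH h9
    refine h9.trans ?_
    rw [h8] at hH ⊢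
    gcongr
  · rw [Real.rpow_add hL0, Real.rpow_natCast] at e4
    have h13 : 0 < L ^ n := by positivity
    have h14 : δ * c * (N / L ^ n) = (δ * c * N) / L ^ n := by ring
    rw [h14, le_div_iff₀ h13]
    calc (L ^ B + 1) * L ^ n ≤ (2 * L ^ B) * L ^ n := by gcongr; linarith
      _ = 2 * (L ^ B * L ^ n) := by ring
      _ ≤ 2 * (δ * c / 2 * N) := by linarith
      _ = _ := by ring

end Pool.Agent.H606.TP
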