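import Pool.Agent.H606.TP.Mo

set_option autoImplicit false

/-! # Upper and lower bounds of the moments -/

namespace Pool.Agent.H606.TP

open Finset Filter Topology Pool.Agent.H387R2 Pool.Agent.H387R2.Uni Pool.Agent.TH891.SG

lemma exists_del {K ε : ℝ} (hK : 0 ≤ K) (hε : 0 < ε) : ∃ δ : ℝ, 0 < δ ∧ δ < 1 ∧
    ((K + δ) * (1 + δ) + 2 * δ) / (1 - δ) ≤ K + ε := by
  have c1 : ContinuousAt (fun δ : ℝ => ((K + δ) * (1 + δ) + 2 * δ) / (1 - δ)) 0 := by
    apply ContinuousAt.div (by fun_prop) (by fun_prop) (by norm_num)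
  have e1 : ∀ᶠ δ in 𝓝 (0:ℝ), ((K + δ) * (1 + δ) + 2 * δ) / (1 - δ) < K + ε := by
    apply c1.eventually_lt_const
    simp [hε]
  have e3 : ∀ᶠ η in 𝓝 (0:ℝ), η < 1 := eventually_lt_nhds (by norm_num)
  obtain ⟨δ, h1, h2, h3⟩ := ((e1.filter_mono nhdsWithin_le_nhds).and
    ((e3.filter_mono nhdsWithin_le_nhds).and (self_mem_nhdsWithin (a := (0:ℝ)) (s := Set.Ioi 0)))).exists
  exact ⟨δ, h3, h2, h1.le⟩

/-- upper bound for the moments -/
theorem mom_upper (n m : ℕ) (hn : 2 ≤ n) {A A' B K : ℝ} (hK : 0 ≤ K) (hBn : (n:ℝ) < B) (hBA : B < A)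
    (hA' : A' < A) (h : UN ((m + 1) * n) A K) {ε : ℝ} (hε : 0 < ε) :
    ∀ᶠ N : ℕ in atTop, ∀ T : Finset ℕ, T.card = n → 0 ∈ T → (∀ t ∈ T, (t:ℝ) ≤ Real.log N ^ A') → Adm T →
      (Mom (Gs T N) N ⌊Real.log N ^ B⌋₊ (m + 1) : ℝ) ≤
        (K + ε) * (N * ((⌊Real.log N ^ B⌋₊ : ℝ) * CT T / Real.log N ^ n) ^ (m + 1)) := by
  classical
  obtain ⟨δ, hδ, hδ1, hδ2⟩ := exists_del hK hε
  obtain ⟨c, hc, hcT⟩ := CT_const n
  set D : ℝ := (m + 1) ^ 2 * n ^ 2 with hD
  have hn0 : 0 < n := by omega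
  have hD0 : 0 < D := by positivity
  set R : ℝ := D / δ with hR
  have hR0 : 0 < R := by positivity
  set R' : ℝ := max 1 (D * R ^ m / δ) with hR'
  filter_upwards [gr_ev n m (A := A) (A' := A') (c := c) (δ := δ) R' hBn hBA hA' hδ hc,
    SS n m hn B A' δ hBn hδ, h δ hδ] with N hG hSS hU
  intro T hTn h0T hTA hadm
  set L := Real.log (N:ℝ) with hLdef
  set H := ⌊L ^ B⌋₊ with hHdef
  have hL0 : 0 < L := by linarith [hG.hL]
  have hN0 : (0:ℝ) < N := by have := hG.hN; exact_mod_cast this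
  have hCT : c ≤ CT T := hcT T hTn hadm
  have hCT0 : 0 < CT T := hc.trans_le hCT
  have hH0 : (0:ℝ) < H := by have := hG.hH; exact_mod_cast this
  have hHle : (H:ℝ) ≤ L ^ B := Nat.floor_le (by positivity)
  have hSS2 := (hSS T hTn hTA hadm).2
  set μ : ℝ := (H:ℝ) * CT T / L ^ n with hμ
  have hμR : R' ≤ μ := by
    refine hG.h3.trans ?_
    rw [hμ]
    gcongr
  have hμ1 : 1 ≤ μ := (le_max_left _ _).trans hμR
  have hμ2 : D * R ^ m / δ ≤ μ := (le_max_right _ _).trans hμR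
  set G := Gs T N with hGdef
  -- splitting
  have hsplit : (Mom G N H (m + 1) : ℝ) =
      ∑ s ∈ (Box H (m + 1)).filter (fun s => Deg T s), (Nn G N s : ℝ) +
        ∑ s ∈ (Box H (m + 1)).filter (fun s => ¬ Deg T s), (Nn G N s : ℝ) := by
    rw [sum_filter_add_sum_filter_not, mom_eq]
    push_cast
    rfl
  have hdeg : ∑ s ∈ (Box H (m + 1)).filter (fun s => Deg T s), (Nn G N s : ℝ) ≤
      δ * Mom G N H (m + 1) + δ * (N * μ ^ (m + 1)) := by
    have h1 := deg_sum T G N H m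
    have h2 : ∑ s ∈ (Box H (m + 1)).filter (fun s => Deg T s), (Nn G N s : ℝ) ≤ D * Mom G N H m := by
      rw [hD, ← hTn]
      exact_mod_cast h1
    have h3 := X_pow_le G N H m hR0
    have h4 : D * R ^ m ≤ δ * μ ^ (m + 1) := by
      rw [div_le_iff₀ hδ] at hμ2
      have h5 : μ ≤ μ ^ (m + 1) := le_self_pow₀ hμ1 (by omega)
      calc D * R ^ m ≤ μ * δ := hμ2
        _ ≤ μ ^ (m + 1) * δ := by gcongr
        _ = _ := by ring
    calc ∑ s ∈ (Box H (m + 1)).filter (fun s => Deg T s), (Nn G N s : ℝ)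
        ≤ D * Mom G N H m := h2
      _ ≤ D * (Mom G N H (m + 1) / R + R ^ m * N) := by gcongr
      _ = D / R * Mom G N H (m + 1) + (D * R ^ m) * N := by ring
      _ ≤ δ * Mom G N H (m + 1) + (δ * μ ^ (m + 1)) * N := by
          have : D / R = δ := by rw [hR]; field_simp
          rw [this]
          gcongr
      _ = _ := by ring
  have hnondeg : ∑ s ∈ (Box H (m + 1)).filter (fun s => ¬ Deg T s), (Nn G N s : ℝ) ≤
      (K + δ) * (1 + δ) * (N * μ ^ (m + 1)) + δ * (N * μ ^ (m + 1)) := by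
    have h1 : ∀ s ∈ (Box H (m + 1)).filter (fun s => ¬ Deg T s), (Nn G N s : ℝ) ≤
        (K + δ) * (CT (U T s) * (N / L ^ ((m + 1) * n))) + ((m + 1 : ℕ) * n : ℝ) := by
      intro s hs
      rw [mem_filter] at hs
      have hcard := card_U hs.2
      have h2 := Nn_le_pc h0T s N
      have h2' : (Nn G N s : ℝ) ≤ pc (dn (U T s)) N := by exact_mod_cast h2
      by_cases hA : Adm (U T s)
      · have h3 := hU (dn (U T s)) (by rw [card_dn, hcard, hTn]) (zero_mem_dn (U_nonempty h0T s)) (by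
          intro t ht
          obtain ⟨a, ha, rfl⟩ := mem_image.1 ht
          obtain ⟨i, d, hd, rfl⟩ := mem_U.1 ha
          have h4 := hTA d hd
          have h5 : s i ≤ H := (mem_Icc.1 ((Fintype.mem_piFinset.1 hs.1) i)).2
          have h6 : (s i : ℝ) ≤ H := by exact_mod_cast h5
          have h7 : (((d + s i) - sInf ((U T s : Finset ℕ) : Set ℕ) : ℕ) : ℝ) ≤ ((d + s i : ℕ) : ℝ) := by
            exact_mod_cast Nat.sub_le _ _
          refine h7.trans ?_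
          push_cast
          have := hG.hA
          linarith) ((Adm_dn _).2 hA)
        rw [CT_dn] at h3
        have h8 : (0:ℝ) ≤ ((m + 1 : ℕ) * n : ℝ) := by positivity
        linarith
      · have h3 := pc_not_adm (fun h => hA ((Adm_dn _).1 h)) N
        rw [card_dn, hcard, hTn] at h3
        have h4 : (pc (dn (U T s)) N : ℝ) ≤ ((m + 1 : ℕ) * n : ℝ) := by exact_mod_cast h3
        have h5 : 0 ≤ (K + δ) * (CT (U T s) * (N / L ^ ((m + 1) * n))) := by
          have := CT_nonneg (U T s)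
          positivity
        linarith
    refine (sum_le_sum h1).trans ?_
    rw [sum_add_distrib, ← mul_sum, ← sum_mul, sum_const, nsmul_eq_mul]
    have h2 : (((Box H (m + 1)).filter (fun s => ¬ Deg T s)).card : ℝ) ≤ (H:ℝ) ^ (m + 1) := by
      have := (card_filter_le (Box H (m + 1)) (fun s => ¬ Deg T s)).trans (card_Box H (m + 1)).le
      exact_mod_cast this
    have h3 : (K + δ) * ((∑ s ∈ (Box H (m + 1)).filter (fun s => ¬ Deg T s), CT (U T s)) * (N / L ^ ((m + 1) * n)))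
        ≤ (K + δ) * (1 + δ) * (N * μ ^ (m + 1)) := by
      have hp : 0 ≤ (N:ℝ) / L ^ ((m + 1) * n) := by positivity
      have hKδ : 0 ≤ K + δ := by linarith
      calc (K + δ) * ((∑ s ∈ (Box H (m + 1)).filter (fun s => ¬ Deg T s), CT (U T s)) * (N / L ^ ((m + 1) * n)))
          ≤ (K + δ) * (((1 + δ) * ((H:ℝ) * CT T) ^ (m + 1)) * (N / L ^ ((m + 1) * n))) := by
            apply mul_le_mul_of_nonneg_left _ hKδ
            exact mul_le_mul_of_nonneg_right hSS2 hp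
        _ = _ := by
            rw [hμ, div_pow, ← pow_mul, mul_comm n (m + 1)]
            ring
    have h4 : (((Box H (m + 1)).filter (fun s => ¬ Deg T s)).card : ℝ) * ((m + 1 : ℕ) * n : ℝ) ≤
        δ * (N * μ ^ (m + 1)) := by
      have h5 := hG.h1
      have h6 : (0:ℝ) < L ^ ((m + 1) * n) := by positivity
      calc (((Box H (m + 1)).filter (fun s => ¬ Deg T s)).card : ℝ) * ((m + 1 : ℕ) * n : ℝ)
          ≤ (H:ℝ) ^ (m + 1) * ((m + 1 : ℕ) * n : ℝ) := by gcongr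
        _ = (H:ℝ) ^ (m + 1) * (((m + 1 : ℕ) * n : ℝ) * L ^ ((m + 1) * n)) / L ^ ((m + 1) * n) := by
            field_simp
        _ ≤ (H:ℝ) ^ (m + 1) * (δ * N * c ^ (m + 1)) / L ^ ((m + 1) * n) := by gcongr
        _ = δ * (N * (((H:ℝ) * c) ^ (m + 1) / L ^ ((m + 1) * n))) := by
            rw [mul_pow]; ring
        _ ≤ δ * (N * (((H:ℝ) * CT T) ^ (m + 1) / L ^ ((m + 1) * n))) := by gcongr
        _ = _ := by
            rw [hμ, div_pow, ← pow_mul, mul_comm n (m + 1)]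
    linarith
  have hM : 0 ≤ (N:ℝ) * μ ^ (m + 1) := by positivity
  have htot : (1 - δ) * (Mom G N H (m + 1) : ℝ) ≤ ((K + δ) * (1 + δ) + 2 * δ) * (N * μ ^ (m + 1)) := by
    have h1 := hsplit
    have e : ((K + δ) * (1 + δ) + 2 * δ) * (N * μ ^ (m + 1)) = (K + δ) * (1 + δ) * (N * μ ^ (m + 1)) +
        δ * (N * μ ^ (m + 1)) + δ * (N * μ ^ (m + 1)) := by ring
    rw [e]
    have e2 : (1 - δ) * (Mom G N H (m + 1) : ℝ) = (Mom G N H (m + 1) : ℝ) - δ * Mom G N H (m + 1) := by ring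
    rw [e2]
    linarith
  have h1δ : 0 < 1 - δ := by linarith
  calc (Mom G N H (m + 1) : ℝ) ≤ (((K + δ) * (1 + δ) + 2 * δ) * (N * μ ^ (m + 1))) / (1 - δ) := by
        rw [le_div_iff₀ h1δ]; linarith
    _ = (((K + δ) * (1 + δ) + 2 * δ) / (1 - δ)) * (N * μ ^ (m + 1)) := by ring
    _ ≤ _ := by gcongr

lemma exists_del2 {K ε : ℝ} (hε : 0 < ε) : ∃ δ : ℝ, 0 < δ ∧ δ < 1 ∧
    K - ε ≤ (K - δ) * (1 - δ) - δ := by
  have c1 : ContinuousAt (fun δ : ℝ => (K - δ) * (1 - δ) - δ) 0 := by fun_prop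
  have e1 : ∀ᶠ δ in 𝓝 (0:ℝ), K - ε < (K - δ) * (1 - δ) - δ := by
    apply c1.eventually_const_lt
    simp [hε]
  have e3 : ∀ᶠ η in 𝓝 (0:ℝ), η < 1 := eventually_lt_nhds (by norm_num)
  obtain ⟨δ, h1, h2, h3⟩ := ((e1.filter_mono nhdsWithin_le_nhds).and
    ((e3.filter_mono nhdsWithin_le_nhds).and (self_mem_nhdsWithin (a := (0:ℝ)) (s := Set.Ioi 0)))).exists
  exact ⟨δ, h3, h2, h1.le⟩

/-- lower bound for the moments -/
theorem mom_lower (n m : ℕ) (hn : 2 ≤ n) {A A' B K : ℝ} (hBn : (n:ℝ) < B) (hBA : B < A)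
    (hA' : A' < A) (h : LN ((m + 1) * n) A K) {ε : ℝ} (hε : 0 < ε) :
    ∀ᶠ N : ℕ in atTop, ∀ T : Finset ℕ, T.card = n → 0 ∈ T → (∀ t ∈ T, (t:ℝ) ≤ Real.log N ^ A') → Adm T →
      (K - ε) * (N * ((⌊Real.log N ^ B⌋₊ : ℝ) * CT T / Real.log N ^ n) ^ (m + 1)) ≤
        (Mom (Gs T N) N ⌊Real.log N ^ B⌋₊ (m + 1) : ℝ) := by
  classical
  by_cases hKε : K - ε ≤ 0
  · filter_upwards with N T _ _ _ _
    have h1 : (0:ℝ) ≤ (Mom (Gs T N) N ⌊Real.log N ^ B⌋₊ (m + 1) : ℝ) := Nat.cast_nonneg _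
    have h2 : (0:ℝ) ≤ (N * ((⌊Real.log N ^ B⌋₊ : ℝ) * CT T / Real.log N ^ n) ^ (m + 1)) := by
      have := CT_nonneg T
      have h3 : 0 ≤ Real.log (N:ℝ) := Real.log_natCast_nonneg N
      positivity
    exact (mul_nonpos_of_nonpos_of_nonneg hKε h2).trans h1
  push Not at hKε
  obtain ⟨δ, hδ, hδ1, hδ2⟩ := exists_del2 (K := K) hε
  obtain ⟨c, hc, hcT⟩ := CT_const n
  have hn0 : 0 < n := by omega
  have hKδ : 0 < K - δ := by
    by_contra hcon
    push Not at hcon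
    have : (K - δ) * (1 - δ) ≤ 0 := mul_nonpos_of_nonpos_of_nonneg hcon (by linarith)
    linarith
  filter_upwards [gr_ev n m (A := A) (A' := A') (c := c) (δ := δ) 1 hBn hBA hA' hδ hc,
    SS n m hn B A' δ hBn hδ, h δ hδ] with N hG hSS hU
  intro T hTn h0T hTA hadm
  set L := Real.log (N:ℝ) with hLdef
  set H := ⌊L ^ B⌋₊ with hHdef
  have hL0 : 0 < L := by linarith [hG.hL]
  have hN0 : (0:ℝ) < N := by have := hG.hN; exact_mod_cast this
  have hCT : c ≤ CT T := hcT T hTn hadm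
  have hCT0 : 0 < CT T := hc.trans_le hCT
  have hH0 : (0:ℝ) < H := by have := hG.hH; exact_mod_cast this
  have hHle : (H:ℝ) ≤ L ^ B := Nat.floor_le (by positivity)
  have hSS1 := (hSS T hTn hTA hadm).1
  set μ : ℝ := (H:ℝ) * CT T / L ^ n with hμ
  set G := Gs T N with hGdef
  have hge : ∑ s ∈ (Box H (m + 1)).filter (fun s => ¬ Deg T s), (Nn G N s : ℝ) ≤ (Mom G N H (m + 1) : ℝ) := by
    rw [mom_eq]
    push_cast
    exact sum_le_sum_of_subset_of_nonneg (filter_subset _ _) fun _ _ _ => Nat.cast_nonneg _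
  refine le_trans ?_ hge
  have h1 : ∀ s ∈ (Box H (m + 1)).filter (fun s => ¬ Deg T s),
        (K - δ) * (CT (U T s) * (N / L ^ ((m + 1) * n))) - 2 * H ≤ (Nn G N s : ℝ) := by
    intro s hs
    rw [mem_filter] at hs
    have hcard := card_U hs.2
    have h2 := pc_le_Nn h0T hs.1 N
    have h2' : (pc (dn (U T s)) N : ℝ) ≤ Nn G N s + 2 * H := by exact_mod_cast h2
    by_cases hA : Adm (U T s)
    · have h3 := hU (dn (U T s)) (by rw [card_dn, hcard, hTn]) (zero_mem_dn (U_nonempty h0T s)) (by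
        intro t ht
        obtain ⟨a, ha, rfl⟩ := mem_image.1 ht
        obtain ⟨i, d, hd, rfl⟩ := mem_U.1 ha
        have h4 := hTA d hd
        have h5 : s i ≤ H := (mem_Icc.1 ((Fintype.mem_piFinset.1 hs.1) i)).2
        have h6 : (s i : ℝ) ≤ H := by exact_mod_cast h5
        have h7 : (((d + s i) - sInf ((U T s : Finset ℕ) : Set ℕ) : ℕ) : ℝ) ≤ ((d + s i : ℕ) : ℝ) := by
          exact_mod_cast Nat.sub_le _ _
        refine h7.trans ?_
        push_cast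
        have := hG.hA
        linarith) ((Adm_dn _).2 hA)
      rw [CT_dn] at h3
      linarith
    · have h3 : CT (U T s) = 0 := by
        have h4 := CT_nonneg (U T s)
        by_contra h5
        exact hA ((CT_pos_iff _).1 (lt_of_le_of_ne h4 (Ne.symm h5)))
      rw [h3]
      have h4 : (0:ℝ) ≤ (Nn G N s : ℝ) := Nat.cast_nonneg _
      have h5 : (0:ℝ) ≤ 2 * H := by positivity
      simp
      linarith
  refine le_trans ?_ (sum_le_sum h1)
  rw [sum_sub_distrib, ← mul_sum, ← sum_mul, sum_const, nsmul_eq_mul]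
  have h2 : (((Box H (m + 1)).filter (fun s => ¬ Deg T s)).card : ℝ) ≤ (H:ℝ) ^ (m + 1) := by
    have := (card_filter_le (Box H (m + 1)) (fun s => ¬ Deg T s)).trans (card_Box H (m + 1)).le
    exact_mod_cast this
  have h3 : (K - δ) * (1 - δ) * (N * μ ^ (m + 1)) ≤
      (K - δ) * ((∑ s ∈ (Box H (m + 1)).filter (fun s => ¬ Deg T s), CT (U T s)) * (N / L ^ ((m + 1) * n))) := by
    have hp : 0 ≤ (N:ℝ) / L ^ ((m + 1) * n) := by positivity
    calc (K - δ) * (1 - δ) * (N * μ ^ (m + 1))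
        = (K - δ) * (((1 - δ) * ((H:ℝ) * CT T) ^ (m + 1)) * (N / L ^ ((m + 1) * n))) := by
          rw [hμ, div_pow, ← pow_mul, mul_comm n (m + 1)]
          ring
      _ ≤ _ := by
          apply mul_le_mul_of_nonneg_left _ hKδ.le
          exact mul_le_mul_of_nonneg_right hSS1 hp
  have h4 : (((Box H (m + 1)).filter (fun s => ¬ Deg T s)).card : ℝ) * (2 * H) ≤
      δ * (N * μ ^ (m + 1)) := by
    have h5 := hG.h2
    have h6 : (0:ℝ) < L ^ ((m + 1) * n) := by positivity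
    calc (((Box H (m + 1)).filter (fun s => ¬ Deg T s)).card : ℝ) * (2 * H)
        ≤ (H:ℝ) ^ (m + 1) * (2 * L ^ B) := by gcongr
      _ = (H:ℝ) ^ (m + 1) * (2 * L ^ B * L ^ ((m + 1) * n)) / L ^ ((m + 1) * n) := by
          field_simp
      _ ≤ (H:ℝ) ^ (m + 1) * (δ * N * c ^ (m + 1)) / L ^ ((m + 1) * n) := by gcongr
      _ = δ * (N * (((H:ℝ) * c) ^ (m + 1) / L ^ ((m + 1) * n))) := by
          rw [mul_pow]; ring
      _ ≤ δ * (N * (((H:ℝ) * CT T) ^ (m + 1) / L ^ ((m + 1) * n))) := by gcongr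
      _ = _ := by
          rw [hμ, div_pow, ← pow_mul, mul_comm n (m + 1)]
  have hM : 0 ≤ (N:ℝ) * μ ^ (m + 1) := by positivity
  have h5 : (K - ε) * (N * μ ^ (m + 1)) ≤ ((K - δ) * (1 - δ) - δ) * (N * μ ^ (m + 1)) :=
    mul_le_mul_of_nonneg_right hδ2 hM
  have h6 : ((K - δ) * (1 - δ) - δ) * (N * μ ^ (m + 1)) =
    (K - δ) * (1 - δ) * (N * μ ^ (m + 1)) - δ * (N * μ ^ (m + 1)) := by ring
  linarith

end Pool.Agent.H606.TP
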