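import Pool.Agent.H606.TP.Mo2

set_option autoImplicit false

/-! # From large tuples to small tuples -/

namespace Pool.Agent.H606.TP

open Finset Filter Topology Pool.Agent.H387R2 Pool.Agent.H387R2.Uni Pool.Agent.TH891.SG

/-- Hölder's inequality for the moments -/
lemma holder (G : Finset ℕ) (N H a b : ℕ) (ha : 1 ≤ a) (hab : a < b) :
    (Mom G N H a : ℝ) ^ (b - 1) ≤ (Mom G N H 1 : ℝ) ^ (b - a) * (Mom G N H b : ℝ) ^ (a - 1) := by
  rcases Nat.lt_or_ge 1 a with h1 | h1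
  swap
  · have : a = 1 := by omega
    subst this
    simp
  have hb1 : (0:ℝ) < (b:ℝ) - 1 := by
    have : (2:ℝ) < b := by exact_mod_cast (by omega : 2 < b)
    linarith
  have hba : (0:ℝ) < (b:ℝ) - a := by
    have : (a:ℝ) < b := by exact_mod_cast hab
    linarith
  have ha1 : (0:ℝ) < (a:ℝ) - 1 := by
    have : (1:ℝ) < a := by exact_mod_cast h1
    linarith
  set p : ℝ := ((b:ℝ) - 1) / (b - a) with hp
  set q : ℝ := ((b:ℝ) - 1) / (a - 1) with hq
  have hp0 : 0 < p := by positivity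
  have hq0 : 0 < q := by positivity
  have hpq : p.HolderConjugate q := by
    rw [Real.holderConjugate_iff]
    refine ⟨?_, ?_⟩
    · rw [hp, one_lt_div hba]
      linarith
    · rw [hp, hq, inv_div, inv_div, ← add_div, div_eq_one_iff_eq hb1.ne']
      ring
  set x : ℕ → ℝ := fun u => (X G H u : ℝ) with hx
  have hx0 : ∀ u, 0 ≤ x u := fun u => Nat.cast_nonneg _
  have h := Real.inner_le_Lp_mul_Lq_of_nonneg (range N) (f := fun u => x u ^ (1 / p))
    (g := fun u => (x u ^ b) ^ (1 / q)) hpq (fun u _ => Real.rpow_nonneg (hx0 u) _)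
    (fun u _ => Real.rpow_nonneg (pow_nonneg (hx0 u) _) _)
  have e1 : ∀ u, x u ^ (1 / p) * (x u ^ b) ^ (1 / q) = x u ^ a := by
    intro u
    rcases eq_or_lt_of_le (hx0 u) with h0 | h0
    · rw [← h0, Real.zero_rpow (by positivity), zero_mul, zero_pow (by omega)]
    · rw [← Real.rpow_natCast (x u) b, ← Real.rpow_mul h0.le, ← Real.rpow_add h0, ← Real.rpow_natCast (x u) a]
      congr 1
      rw [hp, hq]
      field_simp
      ring
  have e2 : ∀ u, (x u ^ (1 / p)) ^ p = x u := by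
    intro u
    rw [← Real.rpow_mul (hx0 u), one_div_mul_cancel hp0.ne', Real.rpow_one]
  have e3 : ∀ u, ((x u ^ b) ^ (1 / q)) ^ q = x u ^ b := by
    intro u
    rw [← Real.rpow_mul (pow_nonneg (hx0 u) _), one_div_mul_cancel hq0.ne', Real.rpow_one]
  simp only [e1, e2, e3] at h
  have f1 : (Mom G N H a : ℝ) = ∑ u ∈ range N, x u ^ a := by
    unfold Mom; push_cast; rfl
  have f2 : (Mom G N H 1 : ℝ) = ∑ u ∈ range N, x u := by
    unfold Mom; push_cast; simp [hx]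
  have f3 : (Mom G N H b : ℝ) = ∑ u ∈ range N, x u ^ b := by
    unfold Mom; push_cast; rfl
  rw [f1, f2, f3]
  have g1 : 0 ≤ ∑ u ∈ range N, x u := sum_nonneg fun u _ => hx0 u
  have g2 : 0 ≤ ∑ u ∈ range N, x u ^ b := sum_nonneg fun u _ => pow_nonneg (hx0 u) _
  have g3 : 0 ≤ ∑ u ∈ range N, x u ^ a := sum_nonneg fun u _ => pow_nonneg (hx0 u) _
  have h2 := pow_le_pow_left₀ g3 h (b - 1)
  refine h2.trans (le_of_eq ?_)
  rw [mul_pow, ← Real.rpow_natCast, ← Real.rpow_natCast, ← Real.rpow_mul g1, ← Real.rpow_mul g2,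
    ← Real.rpow_natCast, ← Real.rpow_natCast]
  congr 2
  · rw [hp, Nat.cast_sub (by omega), Nat.cast_sub (by omega)]
    push_cast
    field_simp
  · rw [hq, Nat.cast_sub (by omega), Nat.cast_sub (by omega)]
    push_cast
    field_simp

lemma power_mean (G : Finset ℕ) (N H m : ℕ) :
    (Mom G N H 1 : ℝ) ^ (m + 1) ≤ (N:ℝ) ^ m * Mom G N H (m + 1) := by
  rcases Nat.eq_zero_or_pos N with h0 | h0
  · subst h0
    simp [Mom]
  have h := pow_sum_div_card_le_sum_pow (s := range N) (f := fun u => (X G H u : ℝ))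
    (fun u _ => Nat.cast_nonneg _) m
  rw [card_range] at h
  have hN : (0:ℝ) < (N:ℝ) ^ m := by
    have : (0:ℝ) < N := by exact_mod_cast h0
    positivity
  rw [div_le_iff₀ hN] at h
  unfold Mom
  push_cast
  simp only [pow_one]
  linarith

/-- **upper halves descend** -/
theorem up_of (n m : ℕ) (hn : 2 ≤ n) {A A' C : ℝ} (hC : 0 ≤ C) (hnA : (n:ℝ) < A) (hA' : A' < A)
    (h : UN ((m + 1) * n) A (C ^ (m + 1))) : UN n A' C := by
  intro ε hε
  obtain ⟨B, hBn, hBA⟩ := exists_between hnA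
  obtain ⟨c, hc, hcT⟩ := CT_const n
  set δ : ℝ := (C + ε / 2) ^ (m + 1) - C ^ (m + 1) with hδ
  have hδ0 : 0 < δ := by
    rw [hδ, sub_pos]
    exact pow_lt_pow_left₀ (by linarith) hC (by omega)
  filter_upwards [mom_upper n m hn (pow_nonneg hC _) hBn hBA hA' h hδ0,
    gr_ev n m (A := A) (A' := A') (c := c) (δ := ε / 2) 1 hBn hBA hA' (by positivity) hc] with N hN hG
  intro T hTn h0T hTA hadm
  have hM := hN T hTn h0T hTA hadm
  set L := Real.log (N:ℝ) with hLdef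
  set H := ⌊L ^ B⌋₊ with hHdef
  have hL0 : 0 < L := by linarith [hG.hL]
  have hN0 : (0:ℝ) < N := by have := hG.hN; exact_mod_cast this
  have hCT : c ≤ CT T := hcT T hTn hadm
  have hCT0 : 0 < CT T := hc.trans_le hCT
  have hH0 : (0:ℝ) < H := by have := hG.hH; exact_mod_cast this
  have hHle : (H:ℝ) ≤ L ^ B := Nat.floor_le (by positivity)
  set μ : ℝ := (H:ℝ) * CT T / L ^ n with hμ
  have hμ0 : 0 < μ := by positivity
  have e1 : C ^ (m + 1) + δ = (C + ε / 2) ^ (m + 1) := by rw [hδ]; ring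
  rw [e1] at hM
  have h1 := power_mean (Gs T N) N H m
  have h2 : (Mom (Gs T N) N H 1 : ℝ) ^ (m + 1) ≤ ((C + ε / 2) * (N * μ)) ^ (m + 1) := by
    calc (Mom (Gs T N) N H 1 : ℝ) ^ (m + 1) ≤ (N:ℝ) ^ m * Mom (Gs T N) N H (m + 1) := h1
      _ ≤ (N:ℝ) ^ m * ((C + ε / 2) ^ (m + 1) * (N * μ ^ (m + 1))) := by gcongr
      _ = _ := by rw [mul_pow, mul_pow, pow_succ (N:ℝ) m]; ring
  have h3 : (Mom (Gs T N) N H 1 : ℝ) ≤ (C + ε / 2) * (N * μ) :=
    le_of_pow_le_pow_left₀ (by omega) (by positivity) h2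
  have h4 := mom_one_ge (Gs T N) N H (fun g hg => Gs_le hg)
  have h5 : (H:ℝ) * pc T N ≤ Mom (Gs T N) N H 1 + H * (H + 1) := by
    rw [← card_Gs]; exact_mod_cast h4
  have h6 : (H:ℝ) * pc T N ≤ H * ((C + ε / 2) * (CT T * (N / L ^ n)) + (L ^ B + 1)) := by
    calc (H:ℝ) * pc T N ≤ (C + ε / 2) * (N * μ) + H * (H + 1) := by linarith
      _ = H * ((C + ε / 2) * (CT T * (N / L ^ n)) + (H + 1)) := by rw [hμ]; ring
      _ ≤ _ := by gcongr
  have h7 := le_of_mul_le_mul_left h6 hH0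
  have h8 : L ^ B + 1 ≤ ε / 2 * (CT T * (N / L ^ n)) := by
    refine hG.h4.trans ?_
    have : 0 ≤ (N:ℝ) / L ^ n := by positivity
    calc ε / 2 * c * (N / L ^ n) = ε / 2 * (c * (N / L ^ n)) := by ring
      _ ≤ _ := by gcongr
  calc (pc T N : ℝ) ≤ (C + ε / 2) * (CT T * (N / L ^ n)) + (L ^ B + 1) := h7
    _ ≤ (C + ε / 2) * (CT T * (N / L ^ n)) + ε / 2 * (CT T * (N / L ^ n)) := by linarith
    _ = _ := by ring

/-- **lower halves descend** -/
theorem low_of (n a b : ℕ) (hn : 2 ≤ n) (ha : 1 ≤ a) (hab : a < b) {A A' c C κ : ℝ} (hC : 0 < C) (hκ : 0 ≤ κ)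
    (hc0 : 0 ≤ c) (hκ2 : κ ^ (b - a) * C ^ (a - 1) ≤ c ^ (b - 1))
    (hnA : (n:ℝ) < A) (hA' : A' < A)
    (hl : LN (a * n) A c) (hu : UN (b * n) A C) : LN n A' κ := by
  intro ε hε
  by_cases hκε : κ - ε ≤ 0
  · filter_upwards with N T _ _ _ _
    have h1 : (0:ℝ) ≤ (pc T N : ℝ) := Nat.cast_nonneg _
    have h2 : (0:ℝ) ≤ CT T * (N / Real.log N ^ n) := by
      have := CT_nonneg T
      have h3 : 0 ≤ Real.log (N:ℝ) := Real.log_natCast_nonneg N
      positivity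
    exact (mul_nonpos_of_nonpos_of_nonneg hκε h2).trans h1
  push Not at hκε
  have hκ0 : 0 < κ := by linarith
  have hcpos : 0 < c := by
    rcases eq_or_lt_of_le hc0 with h | h
    · exfalso
      rw [← h, zero_pow (by omega)] at hκ2
      have : 0 < κ ^ (b - a) * C ^ (a - 1) := by positivity
      linarith
    · exact h
  -- choice of `δ`
  obtain ⟨δ, hδ, hδc, hδ2⟩ : ∃ δ : ℝ, 0 < δ ∧ δ < c ∧
      (κ - ε) ^ (b - a) * (C + δ) ^ (a - 1) < (c - δ) ^ (b - 1) := by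
    have hlt : (κ - ε) ^ (b - a) * (C + 0) ^ (a - 1) < (c - 0) ^ (b - 1) := by
      rw [add_zero, sub_zero]
      refine lt_of_lt_of_le ?_ hκ2
      apply mul_lt_mul_of_pos_right _ (by positivity)
      exact pow_lt_pow_left₀ (by linarith) hκε.le (by omega)
    have c1 : ContinuousAt (fun δ : ℝ => (c - δ) ^ (b - 1) - (κ - ε) ^ (b - a) * (C + δ) ^ (a - 1)) 0 := by
      fun_prop
    have e1 : ∀ᶠ δ in 𝓝 (0:ℝ), 0 < (c - δ) ^ (b - 1) - (κ - ε) ^ (b - a) * (C + δ) ^ (a - 1) := by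
      apply c1.eventually_const_lt
      linarith
    have e3 : ∀ᶠ η in 𝓝 (0:ℝ), η < c := eventually_lt_nhds hcpos
    obtain ⟨δ, h1, h2, h3⟩ := ((e1.filter_mono nhdsWithin_le_nhds).and
      ((e3.filter_mono nhdsWithin_le_nhds).and (self_mem_nhdsWithin (a := (0:ℝ)) (s := Set.Ioi 0)))).exists
    exact ⟨δ, h3, h2, by linarith⟩
  obtain ⟨B, hBn, hBA⟩ := exists_between hnA
  obtain ⟨c', hc', hcT⟩ := CT_const n
  obtain ⟨a', rfl⟩ : ∃ a', a = a' + 1 := ⟨a - 1, by omega⟩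
  obtain ⟨b', rfl⟩ : ∃ b', b = b' + 1 := ⟨b - 1, by omega⟩
  filter_upwards [mom_lower n a' hn hBn hBA hA' hl hδ, mom_upper n b' hn hC.le hBn hBA hA' hu hδ,
    gr_ev n a' (A := A) (A' := A') (c := c') (δ := 1) 1 hBn hBA hA' (by positivity) hc'] with N h1 h2 hG
  intro T hTn h0T hTA hadm
  have hM1 := h1 T hTn h0T hTA hadm
  have hM2 := h2 T hTn h0T hTA hadm
  set L := Real.log (N:ℝ) with hLdef
  set H := ⌊L ^ B⌋₊ with hHdef
  have hL0 : 0 < L := by linarith [hG.hL]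
  have hN0 : (0:ℝ) < N := by have := hG.hN; exact_mod_cast this
  have hCT : c' ≤ CT T := hcT T hTn hadm
  have hCT0 : 0 < CT T := hc'.trans_le hCT
  have hH0 : (0:ℝ) < H := by have := hG.hH; exact_mod_cast this
  set μ : ℝ := (H:ℝ) * CT T / L ^ n with hμ
  have hμ0 : 0 < μ := by positivity
  set G := Gs T N with hGdef
  have hcd : 0 < c - δ := by linarith
  have key : (κ - ε) * (N * μ) ≤ (Mom G N H 1 : ℝ) := by
    by_contra hcon
    push Not at hcon
    have h3 := holder G N H (a' + 1) (b' + 1) ha hab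
    simp only [Nat.add_sub_cancel] at h3 hδ2
    have hbpos : 0 < b' := by omega
    have h4 : ((c - δ) * (N * μ ^ (a' + 1))) ^ b' ≤ (Mom G N H (a' + 1) : ℝ) ^ b' :=
      pow_le_pow_left₀ (by positivity) hM1 _
    have h5 : (Mom G N H 1 : ℝ) ^ (b' + 1 - (a' + 1)) ≤ ((κ - ε) * (N * μ)) ^ (b' + 1 - (a' + 1)) :=
      pow_le_pow_left₀ (Nat.cast_nonneg _) hcon.le _
    have h6 : (Mom G N H (b' + 1) : ℝ) ^ a' ≤ ((C + δ) * (N * μ ^ (b' + 1))) ^ a' :=
      pow_le_pow_left₀ (Nat.cast_nonneg _) hM2 _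
    have h7 : ((c - δ) * (N * μ ^ (a' + 1))) ^ b' ≤
        ((κ - ε) * (N * μ)) ^ (b' + 1 - (a' + 1)) * ((C + δ) * (N * μ ^ (b' + 1))) ^ a' := by
      refine h4.trans (h3.trans ?_)
      apply mul_le_mul h5 h6 (by positivity)
      have : 0 ≤ κ - ε := hκε.le
      positivity
    obtain ⟨e, he⟩ : ∃ e, b' = a' + e := ⟨b' - a', by omega⟩
    have he2 : b' + 1 - (a' + 1) = e := by omega
    rw [he2] at h7 hδ2
    have h8 : ((c - δ) * (N * μ ^ (a' + 1))) ^ b' = (c - δ) ^ b' * (N ^ b' * μ ^ ((a' + 1) * b')) := by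
      rw [mul_pow, mul_pow, ← pow_mul]
    have h9 : ((κ - ε) * (N * μ)) ^ e * ((C + δ) * (N * μ ^ (b' + 1))) ^ a' =
        ((κ - ε) ^ e * (C + δ) ^ a') * (N ^ b' * μ ^ ((a' + 1) * b')) := by
      rw [mul_pow, mul_pow, mul_pow, mul_pow, ← pow_mul]
      have e1 : (N:ℝ) ^ b' = N ^ a' * N ^ e := by rw [he, pow_add]
      have e2 : μ ^ ((a' + 1) * b') = μ ^ ((b' + 1) * a') * μ ^ e := by
        rw [← pow_add]; congr 1; rw [he]; ring
      rw [e1, e2]
      ring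
    rw [h8, h9] at h7
    have h10 : 0 < (N:ℝ) ^ b' * μ ^ ((a' + 1) * b') := by positivity
    have h11 := le_of_mul_le_mul_right h7 h10
    linarith
  have h4 := mom_one_le G N H
  have h5 : (Mom G N H 1 : ℝ) ≤ H * pc T N := by
    rw [← card_Gs]; exact_mod_cast h4
  have h6 : (H:ℝ) * ((κ - ε) * (CT T * (N / L ^ n))) ≤ H * pc T N := by
    refine le_trans (le_of_eq ?_) (key.trans h5)
    rw [hμ]; ring
  exact le_of_mul_le_mul_left h6 hH0

end Pool.Agent.H606.TP
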