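import Pool.Agent.H606.TP.Core3
import Pool.Graph.R_seed8.H362R2.QT.CTS

set_option autoImplicit false

/-! # The mean of the singular series over the unions of translates of a pattern -/

namespace Pool.Agent.H606.TP

open Finset Filter Topology Pool.Agent.H387R2 Pool.Agent.H387R2.Uni Pool.Agent.TH891.SG

lemma exists_eta (j : ℕ) (ε : ℝ) (hε : 0 < ε) : ∃ η : ℝ, 0 < η ∧ η < 1 / 2 ∧
    (1 + η) * ((1 + η) / (1 - η)) ^ j ≤ 1 + ε ∧ 1 - ε ≤ (1 - η) * (((1 - η) / (1 + η)) ^ j - η) := by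
  have c1 : ContinuousAt (fun η : ℝ => (1 + η) * ((1 + η) / (1 - η)) ^ j) 0 := by
    apply ContinuousAt.mul (by fun_prop)
    apply ContinuousAt.pow
    apply ContinuousAt.div (by fun_prop) (by fun_prop) (by norm_num)
  have c2 : ContinuousAt (fun η : ℝ => (1 - η) * (((1 - η) / (1 + η)) ^ j - η)) 0 := by
    apply ContinuousAt.mul (by fun_prop)
    apply ContinuousAt.sub _ (by fun_prop)
    apply ContinuousAt.pow
    apply ContinuousAt.div (by fun_prop) (by fun_prop) (by norm_num)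
  have e1 : ∀ᶠ η in 𝓝 (0:ℝ), (1 + η) * ((1 + η) / (1 - η)) ^ j < 1 + ε := by
    apply c1.eventually_lt_const
    simp [hε]
  have e2 : ∀ᶠ η in 𝓝 (0:ℝ), 1 - ε < (1 - η) * (((1 - η) / (1 + η)) ^ j - η) := by
    apply c2.eventually_const_lt
    simp [hε]
  have e3 : ∀ᶠ η in 𝓝 (0:ℝ), η < 1 / 2 := eventually_lt_nhds (by norm_num)
  have e : ∀ᶠ η in 𝓝[>] (0:ℝ), ((1 + η) * ((1 + η) / (1 - η)) ^ j < 1 + ε ∧
      1 - ε < (1 - η) * (((1 - η) / (1 + η)) ^ j - η)) ∧ η < 1 / 2 ∧ 0 < η :=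
    ((e1.and e2).filter_mono nhdsWithin_le_nhds).and ((e3.filter_mono nhdsWithin_le_nhds).and
      self_mem_nhdsWithin)
  obtain ⟨η, ⟨h1, h2⟩, h3, h4⟩ := e.exists
  exact ⟨η, h4, h3, h1.le, h2.le⟩

lemma WW_sq {L : ℝ} (hL : Real.exp 1 ≤ L) : ((WW ⌊Real.log L⌋₊ : ℕ) : ℝ) ≤ L ^ 2 := by
  have hL0 : 0 < L := (Real.exp_pos 1).trans_le hL
  have hlog : 1 ≤ Real.log L := by
    rw [← Real.log_exp 1]; exact Real.log_le_log (Real.exp_pos 1) hL
  set y := ⌊Real.log L⌋₊ with hy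
  have hyu : (y:ℝ) ≤ Real.log L := Nat.floor_le (by linarith)
  have hWle : WW y ≤ 4 ^ y := by
    refine le_trans (le_of_eq ?_) (primorial_le_four_pow y)
    unfold Uni.WW primorial
    rfl
  calc ((WW y : ℕ) : ℝ) ≤ ((4 ^ y : ℕ) : ℝ) := by exact_mod_cast hWle
      _ = (4:ℝ) ^ y := by push_cast; rfl
      _ ≤ (Real.exp 2) ^ y := by
          apply pow_le_pow_left₀ (by norm_num)
          have h3 := Real.exp_one_gt_d9
          have h4 : Real.exp 2 = Real.exp 1 ^ 2 := by rw [← Real.exp_nat_mul]; norm_num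
          rw [h4]
          calc (4 : ℝ) ≤ 2.7182818283 ^ 2 := by norm_num
            _ ≤ _ := by gcongr
      _ = Real.exp (y * 2) := by rw [← Real.exp_nat_mul]
      _ ≤ Real.exp (Real.log L * 2) := Real.exp_le_exp.2 (by linarith)
      _ = L ^ 2 := by
          rw [mul_comm, show (2:ℝ) * Real.log L = ((2:ℕ):ℝ) * Real.log L by norm_num,
            Real.exp_nat_mul, Real.exp_log hL0]

lemma tL : Tendsto (fun N : ℕ => Real.log (N : ℝ)) atTop atTop :=
  Real.tendsto_log_atTop.comp tendsto_natCast_atTop_atTop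

/-- the parameters -/
structure Par (n m : ℕ) (B A' η c : ℝ) (N : ℕ) : Prop where
  hL : Real.exp 1 ≤ Real.log N
  hW : (WW ⌊Real.log (Real.log N)⌋₊ : ℝ) ≤ η * ⌊Real.log N ^ B⌋₊
  hy : 1 ≤ ⌊Real.log (Real.log N)⌋₊
  hC : Real.log N ^ A' + Real.log N ^ B ≤ Real.log N ^ (max A' B + 1)
  hd : ((m + 1) ^ 2 * n ^ 2 : ℝ) * (⌊Real.log (Real.log N)⌋₊ : ℝ) ^ ((m + 1) * n) ≤
    η * ⌊Real.log N ^ B⌋₊ * c ^ (m + 1)

lemma par_ev (n m : ℕ) {B A' η c : ℝ} (hB : 2 < B) (hη : 0 < η) (hc : 0 < c) :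
    ∀ᶠ N : ℕ in atTop, Par n m B A' η c N := by
  have t1 : Tendsto (fun L : ℝ => L ^ (B - 2)) atTop atTop := tendsto_rpow_atTop (by linarith)
  have e1 : ∀ᶠ L : ℝ in atTop, 4 / η ≤ L ^ (B - 2) := t1.eventually_ge_atTop _
  have e2 : ∀ᶠ L : ℝ in atTop, (2 / (η * c ^ (m + 1))) * ((m + 1) ^ 2 * n ^ 2 : ℝ) *
      Real.log L ^ ((m + 1) * n) ≤ L := by
    have h := (Real.isLittleO_pow_log_id_atTop (n := (m + 1) * n)).def
      (c := 1 / ((2 / (η * c ^ (m + 1))) * ((m + 1) ^ 2 * n ^ 2 : ℝ) + 1)) (by positivity)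
    filter_upwards [h, eventually_ge_atTop 1] with L hL hL1
    simp only [id, Real.norm_eq_abs] at hL
    have h0 : 0 ≤ Real.log L := Real.log_nonneg hL1
    rw [abs_of_nonneg (by positivity), abs_of_nonneg (by linarith)] at hL
    set D := (2 / (η * c ^ (m + 1))) * ((m + 1) ^ 2 * n ^ 2 : ℝ) with hD
    have hD0 : 0 ≤ D := by positivity
    calc D * Real.log L ^ ((m + 1) * n) ≤ D * (1 / (D + 1) * L) := by gcongr
      _ = (D / (D + 1)) * L := by ring
      _ ≤ 1 * L := by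
          apply mul_le_mul_of_nonneg_right _ (by linarith)
          rw [div_le_one (by linarith)]; linarith
      _ = L := one_mul L
  have hev : ∀ᶠ L : ℝ in atTop, Real.exp 2 ≤ L ∧ 4 / η ≤ L ^ (B - 2) ∧
      (2 / (η * c ^ (m + 1))) * ((m + 1) ^ 2 * n ^ 2 : ℝ) * Real.log L ^ ((m + 1) * n) ≤ L :=
    (eventually_ge_atTop _).and (e1.and e2)
  filter_upwards [tL.eventually hev] with N hN
  obtain ⟨h1, h2, h3⟩ := hN
  set L := Real.log (N:ℝ) with hL
  have he : Real.exp 1 ≤ Real.exp 2 := Real.exp_le_exp.2 (by norm_num)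
  have he2 : (2:ℝ) ≤ Real.exp 1 := by have := Real.add_one_le_exp (1:ℝ); linarith
  have hL2 : 2 ≤ L := by linarith
  have hL0 : 0 < L := by linarith
  have hlog : 2 ≤ Real.log L := by
    rw [← Real.log_exp 2]; exact Real.log_le_log (Real.exp_pos 2) h1
  have hLB : L ^ (2:ℝ) ≤ L ^ B := Real.rpow_le_rpow_of_exponent_le (by linarith) hB.le
  have hLB' : L * L ≤ L ^ B := by
    have h7 : L ^ (2:ℝ) = L * L := by
      rw [show (2:ℝ) = ((2:ℕ):ℝ) by norm_num, Real.rpow_natCast]; ring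
    rw [← h7]; exact hLB
  clear hLB
  have hH : L ^ B / 2 ≤ (⌊L ^ B⌋₊ : ℝ) := by
    have h5 := Nat.lt_floor_add_one (L ^ B)
    have h8 : (2:ℝ) * 2 ≤ L * L := mul_le_mul hL2 hL2 (by norm_num) hL0.le
    have h9 : (2:ℝ) * 2 ≤ L ^ B := h8.trans hLB'
    clear h1 h2 h3 hev e1 e2 t1
    generalize L ^ B = Z at *
    linarith
  have hLLB : L ≤ L ^ B := by
    have h8 : 1 * L ≤ L * L := mul_le_mul_of_nonneg_right (by linarith) hL0.le
    rw [one_mul] at h8
    exact h8.trans hLB'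
  have hyL : (⌊Real.log L⌋₊ : ℝ) ≤ Real.log L := Nat.floor_le (by linarith)
  refine ⟨by linarith, ?_, ?_, ?_, ?_⟩
  · have h5 := WW_sq (L := L) (by linarith)
    refine h5.trans ?_
    have h6 : L ^ B = L ^ 2 * L ^ (B - 2) := by
      rw [← Real.rpow_natCast L 2, ← Real.rpow_add hL0]
      congr 1
      push_cast; ring
    have hH' := hH
    rw [h6] at hH'
    rw [← h6] at hH'
    have h7 : 4 ≤ η * L ^ (B - 2) := by
      rw [div_le_iff₀ hη] at h2; linarith
    calc L ^ 2 = L ^ 2 * 1 := by ring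
      _ ≤ L ^ 2 * (η * L ^ (B - 2) / 2) := by gcongr; linarith
      _ = η * (L ^ 2 * L ^ (B - 2) / 2) := by ring
      _ = η * (L ^ B / 2) := by rw [h6]
      _ ≤ η * (⌊L ^ B⌋₊ : ℝ) := by gcongr
  · exact Nat.le_floor (by push_cast; linarith)
  · have h5 : L ^ A' ≤ L ^ max A' B := Real.rpow_le_rpow_of_exponent_le (by linarith) (le_max_left _ _)
    have h6 : L ^ B ≤ L ^ max A' B := Real.rpow_le_rpow_of_exponent_le (by linarith) (le_max_right _ _)
    have h7 : 0 < L ^ max A' B := Real.rpow_pos_of_pos hL0 _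
    rw [Real.rpow_add hL0, Real.rpow_one]
    have h8 : L ^ max A' B * 2 ≤ L ^ max A' B * L := mul_le_mul_of_nonneg_left hL2 h7.le
    rw [← hL]
    linarith
  · have h5 : L ≤ L ^ B := hLLB
    set D := ((m + 1) ^ 2 * n ^ 2 : ℝ) with hD
    have hD0 : 0 ≤ D := by positivity
    have h6 : 0 < η * c ^ (m + 1) := by positivity
    have h8 : D * Real.log L ^ ((m + 1) * n) ≤ (η * c ^ (m + 1)) * L / 2 := by
      have h7 : (2 / (η * c ^ (m + 1))) * D * Real.log L ^ ((m + 1) * n) =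
        (2 * (D * Real.log L ^ ((m + 1) * n))) / (η * c ^ (m + 1)) := by ring
      rw [h7, div_le_iff₀ h6] at h3
      linarith
    calc D * (⌊Real.log L⌋₊ : ℝ) ^ ((m + 1) * n) ≤ D * Real.log L ^ ((m + 1) * n) := by gcongr
      _ ≤ (η * c ^ (m + 1)) * L / 2 := h8
      _ ≤ (η * c ^ (m + 1)) * L ^ B / 2 := by gcongr
      _ = (η * c ^ (m + 1)) * (L ^ B / 2) := by ring
      _ ≤ (η * c ^ (m + 1)) * (⌊L ^ B⌋₊ : ℝ) := by gcongr
      _ = _ := by ring

open Classical in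
/-- the mean of the singular series over the unions of `m + 1` disjoint translates of a pattern -/
theorem SS (n m : ℕ) (hn : 2 ≤ n) (B A' ε : ℝ) (hB : (n:ℝ) < B) (hε : 0 < ε) :
    ∀ᶠ N : ℕ in atTop, ∀ T : Finset ℕ, T.card = n → (∀ t ∈ T, (t:ℝ) ≤ Real.log N ^ A') → Adm T →
      (1 - ε) * ((⌊Real.log N ^ B⌋₊ : ℝ) * CT T) ^ (m + 1) ≤
        ∑ s ∈ (Box ⌊Real.log N ^ B⌋₊ (m + 1)).filter (fun s => ¬ Deg T s), CT (U T s) ∧
      ∑ s ∈ (Box ⌊Real.log N ^ B⌋₊ (m + 1)).filter (fun s => ¬ Deg T s), CT (U T s) ≤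
        (1 + ε) * ((⌊Real.log N ^ B⌋₊ : ℝ) * CT T) ^ (m + 1) := by
  obtain ⟨η, hη, hη2, hη3, hη4⟩ := exists_eta (m + 1) ε hε
  obtain ⟨c, hc, hcT⟩ := CT_const n
  have hB2 : 2 < B := lt_of_le_of_lt (by exact_mod_cast hn) hB
  obtain ⟨k, hk⟩ : ∃ k, (m + 1) * n = k + 1 := ⟨(m + 1) * n - 1, by
    have : 1 ≤ (m + 1) * n := Nat.one_le_iff_ne_zero.2 (by positivity)
    omega⟩
  obtain ⟨k', hk'⟩ : ∃ k', n = k' + 1 := ⟨n - 1, by omega⟩
  filter_upwards [par_ev n m (A' := A') hB2 hη hc, Pool.Agent.H362R2.QT.CTS k η (max A' B + 1) hη,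
    Pool.Agent.H362R2.QT.CTS k' η (max A' B + 1) hη] with N hP h1 h2
  intro T hTn hTA hadm
  set L := Real.log (N:ℝ) with hLdef
  set H := ⌊L ^ B⌋₊ with hHdef
  set y := ⌊Real.log L⌋₊ with hydef
  set W := WW y with hWdef
  have hL1 : 1 ≤ L := by
    have := Real.add_one_le_exp (1:ℝ)
    linarith [hP.hL]
  have hL0 : 0 < L := by linarith
  have hWpos : 0 < W := WW_pos y
  have hW0 : (0:ℝ) < W := by exact_mod_cast hWpos
  have hρ := MB.rho_pos y
  have hρy : 1 / MB.rho y ≤ y := by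
    have h3 := MB.rho_ge hP.hy
    have hy0 : (0:ℝ) < y := by
      have := hP.hy
      exact_mod_cast this
    rw [div_le_iff₀ hρ]
    rw [div_le_iff₀ hy0] at h3
    linarith
  have hρ0 : 0 < 1 / MB.rho y := by positivity
  have hWH : (W:ℝ) ≤ η * H := hP.hW
  have hH0 : (0:ℝ) < H := by
    by_contra h
    have : (H:ℝ) = 0 := le_antisymm (not_lt.1 h) (Nat.cast_nonneg _)
    rw [this, mul_zero] at hWH
    linarith
  have hWHn : W ≤ H := by
    have : (W:ℝ) ≤ H := by nlinarith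
    exact_mod_cast this
  have hLB : (0:ℝ) ≤ L ^ B := by positivity
  have hHle : (H:ℝ) ≤ L ^ B := Nat.floor_le hLB
  have hCT : c ≤ CT T := hcT T hTn hadm
  -- `T` itself
  set τ : ℝ := (1 / MB.rho y) ^ n * ((gT W T : ℝ) / W) with hτ
  have hτ0 : 0 ≤ τ := by positivity
  have hT2 := h2 T (by rw [hTn, hk']) (fun t ht => Nat.le_floor (by
    have h3 := hTA t ht
    have h4 : L ^ A' ≤ L ^ (max A' B + 1) := by
      have := hP.hC
      linarith
    exact h3.trans h4))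
  have hτ1 : (1 - η) * τ ≤ CT T := by
    have := hT2.1
    rw [← hk'] at this
    exact this
  have hτ2 : CT T ≤ (1 + η) * τ := by
    have := hT2.2
    rw [← hk'] at this
    exact this
  -- the unions
  set tt : (Fin (m + 1) → ℕ) → ℝ := fun s => (1 / MB.rho y) ^ ((m + 1) * n) * ((gT W (U T s) : ℝ) / W) with htt
  have htt0 : ∀ s, 0 ≤ tt s := fun s => by rw [htt]; positivity
  have hU : ∀ s ∈ (Box H (m + 1)).filter (fun s => ¬ Deg T s),
      (1 - η) * tt s ≤ CT (U T s) ∧ CT (U T s) ≤ (1 + η) * tt s := by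
    intro s hs
    rw [mem_filter] at hs
    have hcard := card_U hs.2
    rw [hTn, hk] at hcard
    have h3 := h1 (U T s) hcard (fun t ht => Nat.le_floor (by
      obtain ⟨i, d, hd, rfl⟩ := mem_U.1 ht
      have h4 := hTA d hd
      have h5 : s i ≤ H := (mem_Icc.1 ((Fintype.mem_piFinset.1 hs.1) i)).2
      have h6 : (s i : ℝ) ≤ H := by exact_mod_cast h5
      have := hP.hC
      push_cast
      linarith))
    rw [← hk] at h3
    exact h3
  -- sums of `tt`
  have hall_up : ∑ s ∈ Box H (m + 1), tt s ≤ (1 + η) ^ (m + 1) * (H * τ) ^ (m + 1) := by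
    rw [htt]
    simp_rw [← mul_div_assoc]
    rw [← sum_div, ← mul_sum]
    have h3 := mean_upper hWpos T H (m + 1)
    have h4 : ((H:ℝ) / W + 1) * gT W T ≤ (1 + η) * (H * ((gT W T : ℝ) / W)) := by
      have : ((H:ℝ) / W + 1) * gT W T = (H + W) * ((gT W T : ℝ) / W) := by field_simp
      rw [this]
      have : (H + W : ℝ) ≤ (1 + η) * H := by linarith
      have h5 : (0:ℝ) ≤ (gT W T : ℝ) / W := by positivity
      calc (H + W : ℝ) * ((gT W T : ℝ) / W) ≤ ((1 + η) * H) * ((gT W T : ℝ) / W) := by gcongr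
        _ = _ := by ring
    calc (1 / MB.rho y) ^ ((m + 1) * n) * (∑ s ∈ Box H (m + 1), (gT W (U T s) : ℝ)) / W
        ≤ (1 / MB.rho y) ^ ((m + 1) * n) * (W * (((H:ℝ) / W + 1) * gT W T) ^ (m + 1)) / W := by gcongr
      _ = (1 / MB.rho y) ^ ((m + 1) * n) * (((H:ℝ) / W + 1) * gT W T) ^ (m + 1) := by
          field_simp
      _ ≤ (1 / MB.rho y) ^ ((m + 1) * n) * ((1 + η) * (H * ((gT W T : ℝ) / W))) ^ (m + 1) := by
          gcongr
      _ = _ := by
          rw [hτ, mul_comm (m + 1) n, pow_mul, ← mul_pow, ← mul_pow]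
          congr 1
          ring
  have hall_low : (1 - η) ^ (m + 1) * (H * τ) ^ (m + 1) ≤ ∑ s ∈ Box H (m + 1), tt s := by
    rw [htt]
    simp_rw [← mul_div_assoc]
    rw [← sum_div, ← mul_sum]
    have h3 := mean_lower hWpos T hWHn (m + 1)
    have h4 : (1 - η) * (H * ((gT W T : ℝ) / W)) ≤ ((H:ℝ) / W - 1) * gT W T := by
      have : ((H:ℝ) / W - 1) * gT W T = (H - W) * ((gT W T : ℝ) / W) := by field_simp
      rw [this]
      have : (1 - η) * H ≤ (H - W : ℝ) := by linarith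
      have h5 : (0:ℝ) ≤ (gT W T : ℝ) / W := by positivity
      calc (1 - η) * (H * ((gT W T : ℝ) / W)) = ((1 - η) * H) * ((gT W T : ℝ) / W) := by ring
        _ ≤ _ := by gcongr
    calc (1 - η) ^ (m + 1) * (H * τ) ^ (m + 1)
        = (1 / MB.rho y) ^ ((m + 1) * n) * ((1 - η) * (H * ((gT W T : ℝ) / W))) ^ (m + 1) := by
          rw [hτ, mul_comm (m + 1) n, pow_mul, ← mul_pow, ← mul_pow]
          congr 1
          ring
      _ ≤ (1 / MB.rho y) ^ ((m + 1) * n) * (((H:ℝ) / W - 1) * gT W T) ^ (m + 1) := by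
          have : 0 ≤ (1 - η) * (H * ((gT W T : ℝ) / W)) := by
            have : 0 ≤ 1 - η := by linarith
            positivity
          gcongr
      _ = (1 / MB.rho y) ^ ((m + 1) * n) * (W * (((H:ℝ) / W - 1) * gT W T) ^ (m + 1)) / W := by
          field_simp
      _ ≤ (1 / MB.rho y) ^ ((m + 1) * n) * (∑ s ∈ Box H (m + 1), (gT W (U T s) : ℝ)) / W := by gcongr
  have hdeg : ∑ s ∈ (Box H (m + 1)).filter (fun s => Deg T s), tt s ≤ η * (H * CT T) ^ (m + 1) := by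
    have h3 : ∀ s ∈ (Box H (m + 1)).filter (fun s => Deg T s), tt s ≤ (y:ℝ) ^ ((m + 1) * n) := by
      intro s _
      rw [htt]
      have h4 : (gT W (U T s) : ℝ) / W ≤ 1 := by
        rw [div_le_one hW0]
        have : gT W (U T s) ≤ W := (card_filter_le _ _).trans (by simp)
        exact_mod_cast this
      calc (1 / MB.rho y) ^ ((m + 1) * n) * ((gT W (U T s) : ℝ) / W)
          ≤ (y:ℝ) ^ ((m + 1) * n) * 1 := by gcongr
        _ = _ := mul_one _
    have h4 := deg_card T (Icc 1 H) m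
    rw [Nat.card_Icc, Nat.add_sub_cancel, hTn] at h4
    have h5 : (((Box H (m + 1)).filter (fun s => Deg T s)).card : ℝ) ≤ (m + 1) ^ 2 * n ^ 2 * H ^ m := by
      exact_mod_cast h4
    calc ∑ s ∈ (Box H (m + 1)).filter (fun s => Deg T s), tt s
        ≤ ((Box H (m + 1)).filter (fun s => Deg T s)).card • (y:ℝ) ^ ((m + 1) * n) := sum_le_card_nsmul _ _ _ h3
      _ = (((Box H (m + 1)).filter (fun s => Deg T s)).card : ℝ) * (y:ℝ) ^ ((m + 1) * n) := by rw [nsmul_eq_mul]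
      _ ≤ ((m + 1) ^ 2 * n ^ 2 * H ^ m) * (y:ℝ) ^ ((m + 1) * n) := by gcongr
      _ = H ^ m * (((m + 1) ^ 2 * n ^ 2) * (y:ℝ) ^ ((m + 1) * n)) := by ring
      _ ≤ H ^ m * (η * H * c ^ (m + 1)) := by
          apply mul_le_mul_of_nonneg_left hP.hd (by positivity)
      _ = η * (H * c) ^ (m + 1) := by ring
      _ ≤ η * (H * CT T) ^ (m + 1) := by gcongr
  have hsplit : ∑ s ∈ (Box H (m + 1)).filter (fun s => Deg T s), tt s +
      ∑ s ∈ (Box H (m + 1)).filter (fun s => ¬ Deg T s), tt s = ∑ s ∈ Box H (m + 1), tt s :=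
    sum_filter_add_sum_filter_not _ _ _
  have hdeg0 : 0 ≤ ∑ s ∈ (Box H (m + 1)).filter (fun s => Deg T s), tt s := sum_nonneg fun s _ => htt0 s
  have hη1 : 0 < 1 - η := by linarith
  have hHCT : 0 ≤ (H * CT T) ^ (m + 1) := by
    have : 0 ≤ CT T := hc.le.trans hCT
    positivity
  constructor
  · have h3 : (1 - η) * ∑ s ∈ (Box H (m + 1)).filter (fun s => ¬ Deg T s), tt s ≤
        ∑ s ∈ (Box H (m + 1)).filter (fun s => ¬ Deg T s), CT (U T s) := by
      rw [mul_sum]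
      exact sum_le_sum fun s hs => (hU s hs).1
    refine le_trans ?_ h3
    have h4 : (((1 - η) / (1 + η)) ^ (m + 1)) * (H * CT T) ^ (m + 1) ≤ (1 - η) ^ (m + 1) * (H * τ) ^ (m + 1) := by
      rw [← mul_pow, ← mul_pow]
      apply pow_le_pow_left₀
      · have : 0 ≤ CT T := hc.le.trans hCT
        positivity
      · calc (1 - η) / (1 + η) * (H * CT T) ≤ (1 - η) / (1 + η) * (H * ((1 + η) * τ)) := by
              gcongr
          _ = (1 - η) * (H * τ) := by field_simp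
    calc (1 - ε) * (H * CT T) ^ (m + 1)
        ≤ ((1 - η) * (((1 - η) / (1 + η)) ^ (m + 1) - η)) * (H * CT T) ^ (m + 1) := by gcongr
      _ = (1 - η) * ((((1 - η) / (1 + η)) ^ (m + 1)) * (H * CT T) ^ (m + 1) - η * (H * CT T) ^ (m + 1)) := by ring
      _ ≤ (1 - η) * ∑ s ∈ (Box H (m + 1)).filter (fun s => ¬ Deg T s), tt s := by
          apply mul_le_mul_of_nonneg_left _ hη1.le
          linarith
  · have h3 : ∑ s ∈ (Box H (m + 1)).filter (fun s => ¬ Deg T s), CT (U T s) ≤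
        (1 + η) * ∑ s ∈ (Box H (m + 1)).filter (fun s => ¬ Deg T s), tt s := by
      rw [mul_sum]
      exact sum_le_sum fun s hs => (hU s hs).2
    refine h3.trans ?_
    have h4 : (1 + η) ^ (m + 1) * (H * τ) ^ (m + 1) ≤ ((1 + η) / (1 - η)) ^ (m + 1) * (H * CT T) ^ (m + 1) := by
      rw [← mul_pow, ← mul_pow]
      apply pow_le_pow_left₀ (by positivity)
      calc (1 + η) * (H * τ) = (1 + η) / (1 - η) * (H * ((1 - η) * τ)) := by field_simp
        _ ≤ (1 + η) / (1 - η) * (H * CT T) := by gcongr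
    calc (1 + η) * ∑ s ∈ (Box H (m + 1)).filter (fun s => ¬ Deg T s), tt s
        ≤ (1 + η) * (((1 + η) / (1 - η)) ^ (m + 1) * (H * CT T) ^ (m + 1)) := by
          apply mul_le_mul_of_nonneg_left _ (by linarith)
          linarith
      _ = ((1 + η) * ((1 + η) / (1 - η)) ^ (m + 1)) * (H * CT T) ^ (m + 1) := by ring
      _ ≤ (1 + ε) * (H * CT T) ^ (m + 1) := by gcongr

end Pool.Agent.H606.TP
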